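import Pool.Agent.W2helper57.TUU.Compl
import Pool.Agent.H569R2.Approx

set_option autoImplicit false

/-!
# Unboundedness is in NP
-/

namespace Pool.Agent.NPC.W2h57TUU

open Pool.Agent.NPC Pool.Agent.NPC.W2h57TU Pool.Agent.W2helper57.TU Pool.Agent.W2helper57.TUU
  Pool.Agent.W2helper57.TUH

/-- the quadratic part of the objective function -/
def sQ (ob : List (ℤ × ℤ)) (d : List ℤ) : ℤ :=
  ((List.range ob.length).map fun j => (ob.getD j (0, 0)).1 * (d.getD j 0) ^ 2).sum

/-- the directional derivative -/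
def sG (ob : List (ℤ × ℤ)) (a d : List ℤ) : ℤ :=
  ((List.range ob.length).map fun j =>
    (2 * (ob.getD j (0, 0)).1 * a.getD j 0 + (ob.getD j (0, 0)).2) * d.getD j 0).sum

/-- the test of certificates -/
def ver (I : Inst) (a d : List ℤ) : Bool :=
  (okB I.1.length I.2 a && okB I.1.length (I.2.map fun q => (q.1, (0 : ℤ))) d) &&
    (decide (sQ I.1 d < 0) || (decide (sQ I.1 d = 0) && decide (sG I.1 a d < 0)))

theorem poly_sQ {α : Type} [TEnc α] {ob : α → List (ℤ × ℤ)} {d : α → List ℤ} (hob : Poly ob)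
    (hd : Poly d) : Poly (fun a => sQ (ob a) (d a)) := by
  have f1 : Poly (fun z : α × ℕ => z.1) := Poly.fst Poly.id
  have h1 : Poly (fun z : α × ℕ => (ob z.1).getD z.2 ((0 : ℤ), (0 : ℤ))) :=
    Poly.getD (d := fun _ => ((0 : ℤ), (0 : ℤ))) (hob.comp f1) (Poly.snd Poly.id) (Poly.const _)
  have h2 : Poly (fun z : α × ℕ => (d z.1).getD z.2 0) :=
    Poly.getD (d := fun _ => (0 : ℤ)) (hd.comp f1) (Poly.snd Poly.id) (Poly.const _)
  exact Poly.isum (Poly.map (UPoly.length hob).range (Poly.imul (Poly.fst h1)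
    (Poly.ipow h2 (UPoly.const 2))))

theorem poly_sG {α : Type} [TEnc α] {ob : α → List (ℤ × ℤ)} {a d : α → List ℤ} (hob : Poly ob)
    (ha : Poly a) (hd : Poly d) : Poly (fun x => sG (ob x) (a x) (d x)) := by
  have f1 : Poly (fun z : α × ℕ => z.1) := Poly.fst Poly.id
  have h1 : Poly (fun z : α × ℕ => (ob z.1).getD z.2 ((0 : ℤ), (0 : ℤ))) :=
    Poly.getD (d := fun _ => ((0 : ℤ), (0 : ℤ))) (hob.comp f1) (Poly.snd Poly.id) (Poly.const _)
  have h2 : Poly (fun z : α × ℕ => (d z.1).getD z.2 0) :=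
    Poly.getD (d := fun _ => (0 : ℤ)) (hd.comp f1) (Poly.snd Poly.id) (Poly.const _)
  have h3 : Poly (fun z : α × ℕ => (a z.1).getD z.2 0) :=
    Poly.getD (d := fun _ => (0 : ℤ)) (ha.comp f1) (Poly.snd Poly.id) (Poly.const _)
  exact Poly.isum (Poly.map (UPoly.length hob).range (Poly.imul (Poly.iadd (Poly.imul
    (Poly.imul (Poly.const 2) (Poly.fst h1)) h3) (Poly.snd h1)) h2))

theorem poly_ver : Poly (fun z : Inst × List ℤ × List ℤ => ver z.1 z.2.1 z.2.2) := by
  have hob : Poly (fun z : Inst × List ℤ × List ℤ => z.1.1) := Poly.fst (Poly.fst Poly.id)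
  have hS : Poly (fun z : Inst × List ℤ × List ℤ => z.1.2) := Poly.snd (Poly.fst Poly.id)
  have ha : Poly (fun z : Inst × List ℤ × List ℤ => z.2.1) := Poly.fst (Poly.snd Poly.id)
  have hd : Poly (fun z : Inst × List ℤ × List ℤ => z.2.2) := Poly.snd (Poly.snd Poly.id)
  have hn : UPoly (fun z : Inst × List ℤ × List ℤ => z.1.1.length) := UPoly.length hob
  exact Poly.and (Poly.and (poly_okB hn hS ha) (poly_okB hn (Poly.map hS
    (Poly.pair (Poly.fst (Poly.snd Poly.id)) (Poly.const 0))) hd))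
    (Poly.or (Poly.ilt (poly_sQ hob hd) (Poly.const 0)) (Poly.and (Poly.decide_eq
      (poly_sQ hob hd) (Poly.const 0)) (Poly.ilt (poly_sG hob ha hd) (Poly.const 0))))

theorem sQ_eq (ob : List (ℤ × ℤ)) (d : List ℤ) :
    sQ ob d = ∑ j, qa ob j * vz ob.length d j ^ 2 := by
  unfold sQ
  rw [sum_range_list]
  refine Finset.sum_congr rfl fun j _ => ?_
  rw [getD_fin]
  rfl

theorem sG_eq (ob : List (ℤ × ℤ)) (a d : List ℤ) :
    sG ob a d = ∑ j, (2 * qa ob j * vz ob.length a j + la ob j) * vz ob.length d j := by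
  unfold sG
  rw [sum_range_list]
  refine Finset.sum_congr rfl fun j _ => ?_
  rw [getD_fin]
  rfl

theorem ver_iff (I : Inst) (a d : List ℤ) :
    ver I a d = true ↔ Cert I (vz I.1.length a) (vz I.1.length d) := by
  unfold ver Cert
  simp only [Bool.and_eq_true, Bool.or_eq_true, decide_eq_true_eq, okB_iff]
  rw [sQ_eq, sG_eq, and_assoc]
  refine and_congr Iff.rfl (and_congr ?_ Iff.rfl)
  constructor
  · intro h q hq
    exact h (q.1, 0) (List.mem_map.2 ⟨q, hq, rfl⟩)
  · intro h q hq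
    rw [List.mem_map] at hq
    obtain ⟨p, hp, rfl⟩ := hq
    exact h p hp

theorem vz_ofFn {n : ℕ} (x : Fin n → ℤ) : vz n (List.ofFn x) = x := by
  funext j
  unfold vz
  rw [List.getD_eq_getElem _ _ (by simp)]
  simp

/-- unboundedness has polynomially bounded certificates -/
theorem exists_np : ∃ P0 : Inst → Prop, InNPP P0 ∧ (∀ I, P0 I → Unb I) ∧
    ∀ I, (mat I).IsTotallyUnimodular → Unb I → P0 I := by
  have hn : UPoly (fun I : Inst => I.1.length) := UPoly.length (Poly.fst Poly.id)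
  obtain ⟨v, hv⟩ := Poly.sz_le hn
  obtain ⟨e, he⟩ := Poly.sz_le (upoly_sq 11)
  set p : Polynomial ℕ := Polynomial.C 2 * (v * (Polynomial.C 4 * (e + Polynomial.C 1) +
    Polynomial.C 6) + Polynomial.C 1) + Polynomial.C 1 with hp
  refine ⟨fun I => ∃ w : List ℤ × List ℤ, sz w ≤ p.eval (sz I) ∧ ver I w.1 w.2 = true,
    inNPP_of (R := fun z : Inst × List ℤ × List ℤ => ver z.1 z.2.1 z.2.2) poly_ver p
      (fun I => Iff.rfl), ?_, ?_⟩
  · rintro I ⟨w, _, hw⟩
    exact cert_unb ((ver_iff I _ _).1 hw)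
  · intro I hTU hU
    obtain ⟨x, hx, hx'⟩ := hU (-2 ^ (20 * uP I ^ 2))
    rw [feas_iff] at hx
    obtain ⟨x1, d, hc, h1, h2⟩ := exists_cert hTU hx hx'
    have hu2 : 2 ≤ uP I := by
      have := uP_ge I
      omega
    have hle : 5 * uP I ≤ 11 * uP I ^ 2 := by nlinarith
    have h3 : I.1.length ≤ v.eval (sz I) := by
      have := (length_lt_sz (List.replicate I.1.length ())).le.trans (hv I)
      rwa [List.length_replicate] at this
    have h4 : 11 * uP I ^ 2 ≤ e.eval (sz I) := by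
      have := (length_lt_sz (List.replicate (11 * uP I ^ 2) ())).le.trans (he I)
      rwa [List.length_replicate] at this
    have key : ∀ y : Fin I.1.length → ℤ, (∀ j, |y j| ≤ 2 ^ (11 * uP I ^ 2)) →
        sz (List.ofFn y) ≤ v.eval (sz I) * (4 * (e.eval (sz I) + 1) + 6) + 1 := by
      intro y hy
      refine NPC.H670R2.sz_vec_le (b := v.eval (sz I)) (e := e.eval (sz I) + 1)
        (by rw [List.length_ofFn]; exact h3) (fun x hx => ?_)
      rw [List.mem_ofFn] at hx
      obtain ⟨j, rfl⟩ := hx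
      have h5 := hy j
      rw [Int.abs_eq_natAbs] at h5
      have h6 : (y j).natAbs ≤ 2 ^ (11 * uP I ^ 2) := by exact_mod_cast h5
      refine h6.trans_lt (Nat.pow_lt_pow_right (by norm_num) (by omega))
    refine ⟨(List.ofFn x1, List.ofFn d), ?_, ?_⟩
    · rw [sz_pair]
      have h5 := key x1 (fun j => (h1 j).trans (pow_le_two_pow hle))
      have h6 := key d h2
      rw [hp]
      simp only [Polynomial.eval_add, Polynomial.eval_mul, Polynomial.eval_C]
      omega
    · rw [ver_iff, vz_ofFn, vz_ofFn]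
      exact hc

/-- if `P = NP`, there is a polynomial-time test of unboundedness -/
theorem exists_test (h : ∀ L : Set (List Bool), InNP L → InP L) : ∃ t : Inst → Bool, Poly t ∧
    ∀ I, (mat I).IsTotallyUnimodular → (t I = true ↔ Unb I) := by
  obtain ⟨P0, h1, h2, h3⟩ := exists_np
  obtain ⟨V, hV, hV'⟩ := InPP.exists_test (P := P0) (h _ h1)
  refine ⟨fun I => decide (V (bits I) = [true]), ?_, fun I hTU => ?_⟩
  · exact Poly.decide_eq ((Pool.Agent.H569R2.poly_of_polyTime hV).comp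
      Pool.Agent.H569R2.poly_bits) (Poly.const _)
  · rw [decide_eq_true_eq, ← hV']
    exact ⟨h2 I, h3 I hTU⟩

end Pool.Agent.NPC.W2h57TUU
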