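import Pool.Agent.W2helper57.TUU.Test

set_option autoImplicit false

/-!
# The test is complete if there is at most one concave variable
-/

namespace Pool.Agent.NPC.W2h57TUU

open Pool.Agent.NPC Pool.Agent.NPC.W2h57TU Pool.Agent.W2helper57.TU Pool.Agent.W2helper57.TUU
  Pool.Agent.W2helper57.TUH

theorem dr_sing1 {n i : ℕ} (hi : i < n) (v : ℤ) (X : Fin n → ℝ) :
    dr (vz n (sing n i v)) X = v * X ⟨i, hi⟩ := by
  unfold dr
  rw [vz_sing le_rfl hi, Finset.sum_eq_single ⟨i, hi⟩]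
  · simp
  · intro k _ hk
    simp [Pi.single_eq_of_ne hk]
  · intro h
    exact absurd (Finset.mem_univ _) h

theorem rng_real {n i : ℕ} (hi : i < n) (l u : ℤ) (X : Fin n → ℝ) (h1 : (l : ℝ) ≤ X ⟨i, hi⟩)
    (h2 : X ⟨i, hi⟩ ≤ u) : ∀ q ∈ rng n i l u, dr (vz n q.1) X ≤ q.2 := by
  intro q hq
  unfold rng at hq
  simp only [List.mem_cons, List.not_mem_nil, or_false] at hq
  rcases hq with rfl | rfl
  · simp only
    rw [dr_sing1 hi]
    push_cast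
    linarith
  · simp only
    rw [dr_sing1 hi]
    push_cast
    linarith

/-- the objective function, when there is only one concave variable -/
theorem split_obj {ob : List (ℤ × ℤ)} {i : Fin ob.length} (honly : ∀ j, qa ob j < 0 → j = i)
    (hi : qa ob i < 0) (Y : Fin ob.length → ℝ) :
    ∑ j, ((qa ob j : ℝ) * Y j ^ 2 + la ob j * Y j) =
      ∑ j, ((cqf ob j : ℝ) * Y j ^ 2 + clf ob j * Y j) + (qa ob i * Y i ^ 2 + la ob i * Y i) := by
  have h1 : ∀ j, j ≠ i → cqf ob j = qa ob j ∧ clf ob j = la ob j := by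
    intro j hj
    have h2 : ¬ qa ob j < 0 := fun h => hj (honly j h)
    change ¬ (ob.get j).1 < 0 at h2
    unfold cqf clf cq
    rw [getD_fin, if_neg h2]
    exact ⟨rfl, rfl⟩
  have h2 : cqf ob i = 0 ∧ clf ob i = 0 := by
    have h2 : (ob.get i).1 < 0 := hi
    unfold cqf clf cq
    rw [getD_fin, if_pos h2]
    exact ⟨rfl, rfl⟩
  rw [← Finset.add_sum_erase _ _ (Finset.mem_univ i),
    ← Finset.add_sum_erase Finset.univ (fun j => (cqf ob j : ℝ) * Y j ^ 2 + clf ob j * Y j)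
      (Finset.mem_univ i)]
  rw [h2.1, h2.2]
  have h3 : ∑ j ∈ Finset.univ.erase i, ((qa ob j : ℝ) * Y j ^ 2 + la ob j * Y j) =
      ∑ j ∈ Finset.univ.erase i, ((cqf ob j : ℝ) * Y j ^ 2 + clf ob j * Y j) := by
    refine Finset.sum_congr rfl fun j hj => ?_
    obtain ⟨e1, e2⟩ := h1 j (Finset.ne_of_mem_erase hj)
    rw [e1, e2]
  rw [h3]
  push_cast
  ring

theorem cqf_le (ob : List (ℤ × ℤ)) (j : Fin ob.length) : cqf ob j ≤ |qa ob j| := by
  unfold cqf cq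
  rw [getD_fin]
  split_ifs
  · exact abs_nonneg _
  · exact le_abs_self _

theorem chord (q h X k : ℝ) (hq : 0 ≤ q) :
    (q * (2 * k + 1) + h) * X - q * (k * (k + 1)) ≤ q * X ^ 2 + h * X + q / 4 := by
  nlinarith [mul_nonneg hq (sq_nonneg (X - k - 1 / 2))]

theorem ray_real {τ G Q : ℝ} (hτ : 0 < τ) (hG : G ≤ τ - 1) (h : Q ≤ -1 ∨ (Q = 0 ∧ G ≤ -1)) :
    τ * G + τ ^ 2 * Q ≤ -τ := by
  rcases h with h | ⟨h, h'⟩
  · have h1 : τ ^ 2 * Q ≤ τ ^ 2 * (-1) := mul_le_mul_of_nonneg_left h (by positivity)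
    have h2 : τ * G ≤ τ * (τ - 1) := mul_le_mul_of_nonneg_left hG hτ.le
    nlinarith
  · rw [h]
    have h2 : τ * G ≤ τ * (-1) := mul_le_mul_of_nonneg_left h' hτ.le
    linarith

theorem two_pow_real {a b : ℕ} (h : a ≤ b) : (2 : ℝ) ^ a ≤ 2 ^ b :=
  pow_le_pow_right₀ (by norm_num) h

theorem tst_complete {I : Inst} (hTU : (mat I).IsTotallyUnimodular)
    {x1 d : Fin I.1.length → ℤ} (hc : Cert I x1 d) (hx1 : ∀ j, |x1 j| ≤ 2 ^ (5 * uP I))
    (hd : ∀ j, |d j| ≤ 2 ^ (11 * uP I ^ 2)) {i : Fin I.1.length} (hi : qa I.1 i < 0)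
    (honly : ∀ j, qa I.1 j < 0 → j = i) (hdi : d i ≠ 0) :
    tst I ((d i).sign * 2 ^ (33 * uP I ^ 2)) i = true := by
  have hR := um_RW hTU
  obtain ⟨hc1, hc2, hc3⟩ := hc
  set u := uP I with hu
  have hu2 : 2 ≤ u := by
    have := uP_ge I
    omega
  have hu4 : 4 ≤ u ^ 2 := by nlinarith
  have h5u : 5 * u ≤ 3 * u ^ 2 := by nlinarith
  have h1u : u ≤ 20 * u ^ 2 := by nlinarith
  set σ := (d i).sign with hσ
  set T : ℤ := σ * 2 ^ (33 * u ^ 2) with hT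
  have hσσ : σ * σ = 1 := by
    rcases sgn_cases (d i) with ⟨h, h'⟩ | ⟨h, h'⟩ | ⟨h, h'⟩
    · rw [hσ, h]; norm_num
    · exact absurd h' hdi
    · rw [hσ, h]; norm_num
  have hσd : σ * d i = |d i| := Int.sign_mul_self_eq_abs _
  have hdpos : 1 ≤ |d i| := Int.one_le_abs hdi
  -- the real parameter
  have hdiR : (d i : ℝ) ≠ 0 := by exact_mod_cast hdi
  set τ : ℝ := ((T : ℝ) - x1 i) / d i with hτ
  have hτd : τ * d i = T - x1 i := div_mul_cancel₀ _ hdiR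
  set N0 : ℤ := 2 ^ (33 * u ^ 2) - σ * x1 i with hN0
  have hτD : τ * ((|d i| : ℤ) : ℝ) = (N0 : ℝ) := by
    have h1 : τ * ((|d i| : ℤ) : ℝ) = σ * (τ * d i) := by
      rw [← hσd]
      push_cast
      ring
    rw [h1, hτd, hN0, hT]
    have h2 : (σ : ℝ) * σ = 1 := by exact_mod_cast hσσ
    push_cast
    linear_combination (2 ^ (33 * u ^ 2) : ℝ) * h2
  have hsx : |σ * x1 i| ≤ 2 ^ (5 * u) := by
    rw [abs_mul]
    have : |σ| = 1 := by
      rcases sgn_cases (d i) with ⟨h, h'⟩ | ⟨h, h'⟩ | ⟨h, h'⟩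
      · rw [hσ, h]; norm_num
      · exact absurd h' hdi
      · rw [hσ, h]; norm_num
    rw [this, one_mul]
    exact hx1 i
  have hN1 : 2 ^ (32 * u ^ 2) ≤ N0 := by
    have h1 := (abs_le.1 hsx).2
    have h2 : (2 : ℤ) ^ (5 * u) ≤ 2 ^ (32 * u ^ 2) := pow_le_two_pow (by omega)
    have h3 : (2 : ℤ) ^ (32 * u ^ 2 + 1) ≤ 2 ^ (33 * u ^ 2) := pow_le_two_pow (by omega)
    have h4 : (2 : ℤ) ^ (32 * u ^ 2 + 1) = 2 ^ (32 * u ^ 2) + 2 ^ (32 * u ^ 2) := by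
      rw [pow_succ]; ring
    rw [hN0]
    linarith
  have hN2 : N0 ≤ 2 ^ (34 * u ^ 2) := by
    have h1 := (abs_le.1 hsx).1
    have h2 : (2 : ℤ) ^ (5 * u) ≤ 2 ^ (33 * u ^ 2) := pow_le_two_pow (by omega)
    have h3 : (2 : ℤ) ^ (33 * u ^ 2 + 1) ≤ 2 ^ (34 * u ^ 2) := pow_le_two_pow (by omega)
    have h4 : (2 : ℤ) ^ (33 * u ^ 2 + 1) = 2 ^ (33 * u ^ 2) + 2 ^ (33 * u ^ 2) := by
      rw [pow_succ]; ring
    rw [hN0]
    linarith
  have hN1R : (2 : ℝ) ^ (32 * u ^ 2) ≤ (N0 : ℝ) := by exact_mod_cast hN1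
  have hN2R : (N0 : ℝ) ≤ 2 ^ (34 * u ^ 2) := by exact_mod_cast hN2
  have hdposR : (1 : ℝ) ≤ ((|d i| : ℤ) : ℝ) := by exact_mod_cast hdpos
  have hdleR : ((|d i| : ℤ) : ℝ) ≤ 2 ^ (11 * u ^ 2) := by exact_mod_cast hd i
  have hN0pos : (0 : ℝ) < N0 := lt_of_lt_of_le (by positivity) hN1R
  have hτpos : 0 < τ := by
    by_contra hcon
    push Not at hcon
    have := mul_nonpos_of_nonpos_of_nonneg hcon (by linarith : (0:ℝ) ≤ ((|d i| : ℤ) : ℝ))
    linarith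
  have hτ1 : (2 : ℝ) ^ (21 * u ^ 2) ≤ τ := by
    have h1 : τ * ((|d i| : ℤ) : ℝ) ≤ τ * 2 ^ (11 * u ^ 2) :=
      mul_le_mul_of_nonneg_left hdleR hτpos.le
    have h2 : (2 : ℝ) ^ (32 * u ^ 2) = 2 ^ (21 * u ^ 2) * 2 ^ (11 * u ^ 2) := by
      rw [← pow_add]
      congr 1
      ring
    rw [hτD] at h1
    have h3 : (2 : ℝ) ^ (21 * u ^ 2) * 2 ^ (11 * u ^ 2) ≤ τ * 2 ^ (11 * u ^ 2) := by linarith
    exact le_of_mul_le_mul_right h3 (by positivity)
  have hτ2 : τ ≤ 2 ^ (34 * u ^ 2) := by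
    have : τ * 1 ≤ τ * ((|d i| : ℤ) : ℝ) := mul_le_mul_of_nonneg_left hdposR hτpos.le
    linarith
  -- the real point
  set X : Fin I.1.length → ℝ := fun j => x1 j + τ * d j with hX
  have hXi : X i = T := by
    rw [hX]
    simp only
    rw [hτd]
    ring
  have hXb : ∀ j, |X j| ≤ 2 ^ (46 * u ^ 2) := by
    intro j
    have h1 : |(x1 j : ℝ)| ≤ 2 ^ (5 * u) := by exact_mod_cast hx1 j
    have h2 : |(d j : ℝ)| ≤ 2 ^ (11 * u ^ 2) := by exact_mod_cast hd j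
    have h3 : |X j| ≤ |(x1 j : ℝ)| + |τ * d j| := abs_add_le _ _
    rw [abs_mul, abs_of_pos hτpos] at h3
    have h4 : τ * |(d j : ℝ)| ≤ 2 ^ (34 * u ^ 2) * 2 ^ (11 * u ^ 2) :=
      mul_le_mul hτ2 h2 (abs_nonneg _) (by positivity)
    rw [← pow_add] at h4
    have h5 : (2 : ℝ) ^ (34 * u ^ 2 + 11 * u ^ 2) = 2 ^ (45 * u ^ 2) := by
      congr 1
      ring
    have h6 : (2 : ℝ) ^ (5 * u) ≤ 2 ^ (45 * u ^ 2) := two_pow_real (by omega)
    have h7 : (2 : ℝ) ^ (45 * u ^ 2 + 1) ≤ 2 ^ (46 * u ^ 2) := two_pow_real (by omega)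
    have h8 : (2 : ℝ) ^ (45 * u ^ 2 + 1) = 2 ^ (45 * u ^ 2) + 2 ^ (45 * u ^ 2) := by
      rw [pow_succ]; ring
    linarith
  set S2 := slc I T i with hS2
  have hS2R : ∀ q ∈ S2, vz I.1.length q.1 ∈ RW (mat I) := by
    intro q hq
    rw [hS2] at hq
    unfold slc at hq
    rcases List.mem_append.1 hq with h | h
    · exact box_R hR rows_mem q h
    · exact (rng_XR hR le_rfl i.2 _ _ q h).1
  have hXS : ∀ q ∈ S2, dr (vz I.1.length q.1) X ≤ q.2 := by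
    intro q hq
    rw [hS2] at hq
    unfold slc box at hq
    rw [List.mem_append, List.mem_append] at hq
    rcases hq with (h | h) | h
    · have e : dr (vz I.1.length q.1) X = ((dz (vz I.1.length q.1) x1 : ℤ) : ℝ) +
          τ * ((dz (vz I.1.length q.1) d : ℤ) : ℝ) := by
        have a1 : dr (vz I.1.length q.1) (fun j => (x1 j : ℝ)) =
          ((dz (vz I.1.length q.1) x1 : ℤ) : ℝ) := dr_int _ _
        have a2 : dr (vz I.1.length q.1) (fun j => (d j : ℝ)) =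
          ((dz (vz I.1.length q.1) d : ℤ) : ℝ) := dr_int _ _
        rw [← a1, ← a2, ← dr_smul, ← dr_add]
        rfl
      rw [e]
      have h1 : ((dz (vz I.1.length q.1) x1 : ℤ) : ℝ) ≤ q.2 := by exact_mod_cast hc1 q h
      have h2 : ((dz (vz I.1.length q.1) d : ℤ) : ℝ) ≤ 0 := by exact_mod_cast hc2 q h
      have h3 := mul_nonpos_of_nonneg_of_nonpos hτpos.le h2
      linarith
    · rw [List.mem_flatMap] at h
      obtain ⟨j, hj, h⟩ := h
      rw [List.mem_range] at hj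
      have h1 := abs_le.1 (hXb ⟨j, hj⟩)
      exact rng_real hj _ _ X (by push_cast; exact h1.1) (by push_cast; exact h1.2) q h
    · exact rng_real i.2 _ _ X hXi.ge hXi.le q h
  -- an integer point
  obtain ⟨z, hz1, hz2⟩ := lpint hR (v := fun r : Fin S2.length => vz I.1.length (S2.get r).1)
    (fun r => hS2R _ (List.get_mem _ _)) (b := fun r => (S2.get r).2) (q := cqf I.1)
    (h := clf I.1) (s := 1) (by norm_num) (X := X)
    (T := fun j => (cqf I.1 j : ℝ) * X j ^ 2 + clf I.1 j * X j + (cqf I.1 j : ℝ) / 4)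
    (fun r => hXS _ (List.get_mem _ _))
    (fun j => by
      have h1 : (0 : ℝ) ≤ cqf I.1 j := by exact_mod_cast cqf_nonneg I.1 j
      have := chord (cqf I.1 j) (clf I.1 j) (X j) (⌊X j / ((1 : ℤ) : ℝ)⌋ : ℝ) h1
      push_cast at this ⊢
      linarith)
  rw [fps_one] at hz2
  have hzS : z ∈ Sol I.1.length S2 := by
    rw [Sol_eq]
    exact hz1
  have hsplit : ∀ y : Fin I.1.length → ℤ, y ∈ Sol I.1.length S2 →
      y ∈ Sol I.1.length I.2 ∧ (∀ j, |y j| ≤ 2 ^ (46 * u ^ 2)) ∧ y i = T := by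
    intro y hy
    rw [hS2] at hy
    unfold slc at hy
    rw [sol_append, sol_box] at hy
    have h1 := (rng_iff le_rfl i.2 T T y).1 hy.2
    exact ⟨hy.1.1, hy.1.2, le_antisymm h1.2 h1.1⟩
  obtain ⟨g1, g2⟩ := conv_spec hR hS2R (K := 46 * u ^ 2) (E := bE I.1 (46 * u ^ 2))
    ⟨z, hzS⟩ (fun y hy => (hsplit y hy).2.1) (by unfold bE; omega) (bE_spec I.1 _)
  change vz I.1.length (bst I T i) ∈ Sol I.1.length S2 at g1
  have g2' : qf (cqf I.1) (clf I.1) (vz I.1.length (bst I T i)) ≤ qf (cqf I.1) (clf I.1) z :=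
    g2 z hzS
  set y := vz I.1.length (bst I T i) with hy
  obtain ⟨k1, _, k3⟩ := hsplit y g1
  unfold tst
  rw [Bool.and_eq_true, okB_iff, decide_eq_true_eq, val_eq, ← hy]
  refine ⟨k1, ?_⟩
  -- the value
  have hval : ((qf (qa I.1) (la I.1) y : ℤ) : ℝ) ≤
      ∑ j, ((qa I.1 j : ℝ) * X j ^ 2 + la I.1 j * X j) + ∑ j, (cqf I.1 j : ℝ) / 4 := by
    have e1 : ((qf (qa I.1) (la I.1) y : ℤ) : ℝ) =
        ∑ j, ((qa I.1 j : ℝ) * (y j : ℝ) ^ 2 + la I.1 j * (y j : ℝ)) := by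
      unfold qf
      push_cast
      rfl
    have e2 : ((qf (cqf I.1) (clf I.1) y : ℤ) : ℝ) =
        ∑ j, ((cqf I.1 j : ℝ) * (y j : ℝ) ^ 2 + clf I.1 j * (y j : ℝ)) := by
      unfold qf
      push_cast
      rfl
    rw [e1, split_obj honly hi, split_obj honly hi X, ← e2, hXi, k3]
    have e3 : ((qf (cqf I.1) (clf I.1) y : ℤ) : ℝ) ≤ ((qf (cqf I.1) (clf I.1) z : ℤ) : ℝ) := by
      exact_mod_cast g2'
    have e4 : ∑ j, ((cqf I.1 j : ℝ) * X j ^ 2 + clf I.1 j * X j + (cqf I.1 j : ℝ) / 4) =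
        ∑ j, ((cqf I.1 j : ℝ) * X j ^ 2 + clf I.1 j * X j) + ∑ j, (cqf I.1 j : ℝ) / 4 :=
      Finset.sum_add_distrib
    rw [e4] at hz2
    linarith
  have hcq : ∑ j, (cqf I.1 j : ℝ) / 4 ≤ 2 ^ u := by
    have h1 : ∑ j, (cqf I.1 j : ℝ) / 4 ≤ ∑ j, ((|qa I.1 j| : ℤ) : ℝ) := by
      refine Finset.sum_le_sum fun j _ => ?_
      have h2 : (cqf I.1 j : ℝ) ≤ ((|qa I.1 j| : ℤ) : ℝ) := by exact_mod_cast cqf_le I.1 j
      have h3 : (0 : ℝ) ≤ cqf I.1 j := by exact_mod_cast cqf_nonneg I.1 j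
      linarith
    refine h1.trans ?_
    have h4 := bd_q I
    rw [← hu] at h4
    exact_mod_cast h4
  set G : ℤ := ∑ j, (2 * qa I.1 j * x1 j + la I.1 j) * d j with hG
  set Q : ℤ := ∑ j, qa I.1 j * d j ^ 2 with hQ
  have hexp : ∑ j, ((qa I.1 j : ℝ) * X j ^ 2 + la I.1 j * X j) =
      ((qf (qa I.1) (la I.1) x1 : ℤ) : ℝ) + τ * (G : ℝ) + τ ^ 2 * (Q : ℝ) := by
    rw [hG, hQ]
    unfold qf
    push_cast
    rw [Finset.mul_sum, Finset.mul_sum, ← Finset.sum_add_distrib, ← Finset.sum_add_distrib]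
    refine Finset.sum_congr rfl fun j _ => ?_
    rw [hX]
    ring
  have hf1 := abs_qf_le hu2 (bd_q I) (bd_h I) hx1
  have hG1 := abs_grad_le hu2 (bd_q I) (bd_h I) hx1 hd
  rw [← hG] at hG1
  have hf1' : ((qf (qa I.1) (la I.1) x1 : ℤ) : ℝ) ≤ 2 ^ (12 * u ^ 2) := by
    exact_mod_cast (abs_le.1 hf1).2
  have hGR : (G : ℝ) ≤ 2 ^ (15 * u ^ 2) := by exact_mod_cast (abs_le.1 hG1).2
  have hray : τ * (G : ℝ) + τ ^ 2 * (Q : ℝ) ≤ -τ := by
    have h15 : (2 : ℝ) ^ (15 * u ^ 2) + 1 ≤ τ := by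
      have h1 : (2 : ℝ) ^ (15 * u ^ 2 + 1) ≤ 2 ^ (21 * u ^ 2) := two_pow_real (by omega)
      have h2 : (2 : ℝ) ^ (15 * u ^ 2 + 1) = 2 ^ (15 * u ^ 2) + 2 ^ (15 * u ^ 2) := by
        rw [pow_succ]; ring
      have h3 : (1 : ℝ) ≤ 2 ^ (15 * u ^ 2) := one_le_pow₀ (by norm_num)
      linarith
    refine ray_real hτpos (by linarith) ?_
    rcases hc3 with h | ⟨h, h'⟩
    · left
      have h1 : Q ≤ -1 := Int.le_sub_one_of_lt h
      exact_mod_cast h1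
    · right
      have h1 : G ≤ -1 := Int.le_sub_one_of_lt h'
      exact ⟨by exact_mod_cast h, by exact_mod_cast h1⟩
  have hfin : ((qf (qa I.1) (la I.1) y : ℤ) : ℝ) < ((-2 ^ (20 * u ^ 2) : ℤ) : ℝ) := by
    have h1 : (2 : ℝ) ^ (12 * u ^ 2) ≤ 2 ^ (20 * u ^ 2) := two_pow_real (by omega)
    have h2 : (2 : ℝ) ^ u ≤ 2 ^ (20 * u ^ 2) := two_pow_real h1u
    have h3 : (2 : ℝ) ^ (20 * u ^ 2 + 2) ≤ 2 ^ (21 * u ^ 2) := two_pow_real (by omega)
    have h4 : (2 : ℝ) ^ (20 * u ^ 2 + 2) = 4 * 2 ^ (20 * u ^ 2) := by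
      rw [pow_add]; ring
    have h5 : (0 : ℝ) < 2 ^ (20 * u ^ 2) := by positivity
    push_cast
    linarith
  exact_mod_cast hfin

/-- completeness -/
theorem unbT_complete {I : Inst} (hTU : (mat I).IsTotallyUnimodular) (hp : concave I ≤ 1)
    (h : Unb I) : unbT I = true := by
  obtain ⟨x, hx, hx'⟩ := h (-2 ^ (20 * uP I ^ 2))
  rw [feas_iff] at hx
  obtain ⟨x1, d, hc, h1, h2⟩ := exists_cert hTU hx hx'
  unfold unbT
  rw [Bool.or_eq_true]
  by_cases hd : ∀ j, qa I.1 j < 0 → d j = 0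
  · left
    rw [lin_iff hTU]
    obtain ⟨c1, c2, c3⟩ := hc
    have e1 : ∀ j, 0 ≤ qa I.1 j * d j ^ 2 := by
      intro j
      by_cases hj : qa I.1 j < 0
      · rw [hd j hj]; simp
      · exact mul_nonneg (not_lt.1 hj) (sq_nonneg _)
    have e2 : 0 ≤ ∑ j, qa I.1 j * d j ^ 2 := Finset.sum_nonneg fun j _ => e1 j
    rcases c3 with c3 | ⟨c3, c4⟩
    · omega
    · have e3 : ∀ j, qa I.1 j ≠ 0 → d j = 0 := by
        intro j hj
        have e4 := (Finset.sum_eq_zero_iff_of_nonneg fun j _ => e1 j).1 c3 j (Finset.mem_univ j)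
        rcases mul_eq_zero.1 e4 with e5 | e5
        · exact absurd e5 hj
        · exact pow_eq_zero_iff (by norm_num) |>.1 e5
      refine ⟨d, c2, e3, lt_of_eq_of_lt (Finset.sum_congr rfl fun j _ => ?_) c4⟩
      by_cases hj : qa I.1 j = 0
      · rw [hj]; ring
      · rw [e3 j hj]; ring
  · right
    push Not at hd
    obtain ⟨i, hi, hdi⟩ := hd
    have honly : ∀ j, qa I.1 j < 0 → j = i := by
      intro j hj
      unfold concave at hp
      exact Finset.card_le_one.1 hp j (by rw [Finset.mem_filter]; exact ⟨Finset.mem_univ _, hj⟩)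
        i (by rw [Finset.mem_filter]; exact ⟨Finset.mem_univ _, hi⟩)
    rw [List.any_eq_true]
    refine ⟨i, mem_ngs.2 hi, ?_⟩
    rw [Bool.or_eq_true]
    have key := tst_complete hTU hc h1 h2 hi honly hdi
    rcases sgn_cases (d i) with ⟨h, h'⟩ | ⟨h, h'⟩ | ⟨h, h'⟩
    · left
      rw [h, one_mul] at key
      exact key
    · exact absurd h' hdi
    · right
      rw [h, neg_one_mul] at key
      exact key

end Pool.Agent.NPC.W2h57TUU
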