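import Mathlib

set_option autoImplicit false

/-!
# Copositivity and small integer certificates

If a quadratic function with integer coefficients is very negative at some nonnegative point, then
it is unbounded below along a small nonnegative integer direction.
-/

namespace Pool.Agent.W2helper57.TUU

open Finset Matrix

section Min

variable {s : Type} [Fintype s] [DecidableEq s] {A : Matrix s s ℝ}

omit [DecidableEq s] in
theorem qd_symm (hA : A.IsSymm) (x y : s → ℝ) : x ⬝ᵥ (A *ᵥ y) = y ⬝ᵥ (A *ᵥ x) := by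
  rw [dotProduct_mulVec, ← mulVec_transpose, hA.eq, dotProduct_comm]

omit [DecidableEq s] in
theorem qd_comb (hA : A.IsSymm) (a b : ℝ) (x y : s → ℝ) :
    (a • x + b • y) ⬝ᵥ (A *ᵥ (a • x + b • y)) =
      a ^ 2 * (x ⬝ᵥ (A *ᵥ x)) + 2 * a * b * (x ⬝ᵥ (A *ᵥ y)) + b ^ 2 * (y ⬝ᵥ (A *ᵥ y)) := by
  simp only [mulVec_add, mulVec_smul, dotProduct_add, add_dotProduct, dotProduct_smul,
    smul_dotProduct, smul_eq_mul]
  rw [qd_symm hA y x]
  ring

variable (hA : A.IsSymm)
  (hmin : ∀ w : s → ℝ, (∀ i, 0 ≤ w i) → (∃ j, w j = 0) → 0 ≤ w ⬝ᵥ (A *ᵥ w))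
  {u : s → ℝ} (hu : ∀ i, 0 < u i) (hneg : u ⬝ᵥ (A *ᵥ u) < 0)

include hA hmin hu hneg

omit [DecidableEq s] in
theorem one_sign0 {w : s → ℝ} (hw : w ⬝ᵥ (A *ᵥ w) < 0) (huw : u ⬝ᵥ (A *ᵥ w) ≤ 0) (i : s) :
    0 < w i := by
  classical
  by_contra hcon
  push Not at hcon
  have hne : (univ.filter fun i => w i ≤ 0).Nonempty :=
    ⟨i, by rw [Finset.mem_filter]; exact ⟨Finset.mem_univ _, hcon⟩⟩
  obtain ⟨k, hk, hkm⟩ := Finset.exists_min_image _ (fun i => u i / (u i - w i)) hne
  rw [Finset.mem_filter] at hk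
  have hk2 := hk.2
  have hd : ∀ i, w i ≤ 0 → 0 < u i - w i := fun i hi => by linarith [hu i]
  set t : ℝ := u k / (u k - w k) with ht
  have ht0 : 0 < t := div_pos (hu k) (hd k hk2)
  have ht1 : t ≤ 1 := by
    rw [ht, div_le_one (hd k hk2)]
    linarith
  have hz := hmin ((1 - t) • u + t • w) ?_ ⟨k, ?_⟩
  · rw [qd_comb hA] at hz
    have h1 : (1 - t) ^ 2 * (u ⬝ᵥ (A *ᵥ u)) ≤ 0 :=
      mul_nonpos_of_nonneg_of_nonpos (sq_nonneg _) hneg.le
    have h2 : 2 * (1 - t) * t * (u ⬝ᵥ (A *ᵥ w)) ≤ 0 := by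
      have : 0 ≤ 1 - t := by linarith
      exact mul_nonpos_of_nonneg_of_nonpos (by positivity) huw
    have h3 : t ^ 2 * (w ⬝ᵥ (A *ᵥ w)) < 0 := mul_neg_of_pos_of_neg (by positivity) hw
    linarith
  · intro j
    simp only [Pi.add_apply, Pi.smul_apply, smul_eq_mul]
    by_cases hj : w j ≤ 0
    · have h1 := hkm j (by rw [Finset.mem_filter]; exact ⟨Finset.mem_univ _, hj⟩)
      have h2 : t * (u j - w j) ≤ u j := by
        rw [← le_div_iff₀ (hd j hj)]
        exact h1
      nlinarith
    · push Not at hj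
      have h1 : 0 ≤ 1 - t := by linarith
      have := mul_nonneg h1 (hu j).le
      have := mul_nonneg ht0.le hj.le
      linarith
  · simp only [Pi.add_apply, Pi.smul_apply, smul_eq_mul]
    have h1 : t * (u k - w k) = u k := div_mul_cancel₀ _ (hd k hk2).ne'
    linarith

omit [DecidableEq s] in
theorem one_sign {w : s → ℝ} (hw : w ⬝ᵥ (A *ᵥ w) < 0) :
    (∀ i, 0 < w i) ∨ (∀ i, w i < 0) := by
  rcases le_total (u ⬝ᵥ (A *ᵥ w)) 0 with h | h
  · exact Or.inl (one_sign0 hA hmin hu hneg hw h)
  · right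
    intro i
    have h1 : (-w) ⬝ᵥ (A *ᵥ (-w)) < 0 := by
      rw [mulVec_neg, dotProduct_neg, neg_dotProduct, neg_neg]
      exact hw
    have h2 : u ⬝ᵥ (A *ᵥ (-w)) ≤ 0 := by
      rw [mulVec_neg, dotProduct_neg]
      linarith
    have := one_sign0 hA hmin hu hneg h1 h2 i
    simp only [Pi.neg_apply] at this
    linarith

omit [DecidableEq s] in
theorem no_zero {w : s → ℝ} (hw : w ⬝ᵥ (A *ᵥ w) < 0) (j : s) : w j ≠ 0 := by
  rcases one_sign hA hmin hu hneg hw with h | h
  · exact (h j).ne'
  · exact (h j).ne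

theorem det_ne : A.det ≠ 0 := by
  intro h
  obtain ⟨v, hv, hv0⟩ := Matrix.exists_mulVec_eq_zero_iff.2 h
  obtain ⟨j, hj⟩ : ∃ j, v j ≠ 0 := by
    by_contra hcon
    push Not at hcon
    exact hv (funext hcon)
  refine no_zero hA hmin hu hneg (w := (1 : ℝ) • u + (-(u j / v j)) • v) ?_ j ?_
  · rw [qd_comb hA, hv0]
    simp only [dotProduct_zero, mul_zero, add_zero, one_pow, one_mul]
    exact hneg
  · simp only [Pi.add_apply, Pi.smul_apply, smul_eq_mul, one_mul]
    field_simp
    ring

omit [DecidableEq s] in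
/-- columns of the negative inverse matrix are nonnegative -/
theorem col_nonneg [DecidableEq s] {x : s → ℝ} {j : s} {c : ℝ} (hc : 0 < c)
    (hx : A *ᵥ x = Pi.single j (-c)) (i : s) : 0 ≤ x i := by
  have h1 : x ⬝ᵥ (A *ᵥ x) = -c * x j := by
    rw [hx, dotProduct_single]
    ring
  have h2 : u ⬝ᵥ (A *ᵥ x) = -c * u j := by
    rw [hx, dotProduct_single]
    ring
  have hj : 0 ≤ x j := by
    by_contra hcon
    push Not at hcon
    refine no_zero hA hmin hu hneg (w := (1 : ℝ) • u + (-(u j / x j)) • x) ?_ j ?_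
    · rw [qd_comb hA, h1, h2]
      have e : (1 : ℝ) ^ 2 * (u ⬝ᵥ (A *ᵥ u)) + 2 * 1 * -(u j / x j) * (-c * u j) +
          (-(u j / x j)) ^ 2 * (-c * x j) = u ⬝ᵥ (A *ᵥ u) + c * (u j ^ 2 / x j) := by
        field_simp
        ring
      rw [e]
      have h3 : u j ^ 2 / x j < 0 := div_neg_of_pos_of_neg (by have := hu j; positivity) hcon
      have h4 := mul_neg_of_pos_of_neg hc h3
      linarith
    · simp only [Pi.add_apply, Pi.smul_apply, smul_eq_mul, one_mul]
      have := div_mul_cancel₀ (u j) hcon.ne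
      linarith
  by_contra hcon
  push Not at hcon
  have ht : 0 < -(x i / u i) := by
    have := div_neg_of_neg_of_pos hcon (hu i)
    linarith
  refine no_zero hA hmin hu hneg (w := (1 : ℝ) • x + (-(x i / u i)) • u) ?_ i ?_
  · rw [qd_comb hA, h1, qd_symm hA x u, h2]
    have h3 : 0 ≤ c * x j := mul_nonneg hc.le hj
    have h4 : 0 < -(x i / u i) * (c * u j) := mul_pos ht (mul_pos hc (hu j))
    have h5 : (-(x i / u i)) ^ 2 * (u ⬝ᵥ (A *ᵥ u)) ≤ 0 :=
      mul_nonpos_of_nonneg_of_nonpos (sq_nonneg _) hneg.le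
    nlinarith
  · simp only [Pi.add_apply, Pi.smul_apply, smul_eq_mul, one_mul]
    have := (hu i).ne'
    field_simp
    ring

end Min

/-! ### Extension by zero and minimal supports -/

section Ext

variable {κ : Type} [Fintype κ] [DecidableEq κ] {R : Type} [CommRing R]

/-- extension by zero -/
def ext (S : Finset κ) (x : S → R) (i : κ) : R := if h : i ∈ S then x ⟨i, h⟩ else 0

omit [Fintype κ] in
theorem ext_mem {S : Finset κ} (x : S → R) (i : S) : ext S x i = x i := by
  unfold ext
  rw [dif_pos i.2]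

omit [Fintype κ] in
theorem ext_not {S : Finset κ} (x : S → R) {i : κ} (hi : i ∉ S) : ext S x i = 0 := by
  unfold ext
  rw [dif_neg hi]

theorem sum_ext {S : Finset κ} (f : κ → R) (x : S → R) :
    ∑ i, f i * ext S x i = ∑ i : S, f i * x i := by
  rw [← Finset.sum_subset (Finset.subset_univ S) (fun i _ hi => by rw [ext_not x hi, mul_zero]),
    ← Finset.sum_coe_sort S]
  exact Finset.sum_congr rfl fun i _ => by rw [ext_mem]

theorem mulVec_ext {S : Finset κ} (N : Matrix κ κ R) (x : S → R) (i : S) :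
    (N *ᵥ ext S x) i = ((N.submatrix (fun i : S => (i : κ)) (fun i : S => (i : κ))) *ᵥ x) i := by
  unfold mulVec dotProduct
  exact sum_ext (fun j => N i j) x

theorem qd_ext {S : Finset κ} (N : Matrix κ κ R) (x : S → R) :
    ext S x ⬝ᵥ (N *ᵥ ext S x) =
      x ⬝ᵥ ((N.submatrix (fun i : S => (i : κ)) (fun i : S => (i : κ))) *ᵥ x) := by
  rw [dotProduct_comm]
  change ∑ i, (N *ᵥ ext S x) i * ext S x i = _
  rw [sum_ext, dotProduct_comm]
  exact Finset.sum_congr rfl fun i _ => by rw [mulVec_ext]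

end Ext

/-- minimal principal submatrix which is not copositive -/
theorem exists_min {κ : Type} [Fintype κ] [DecidableEq κ] (N : Matrix κ κ ℝ) {u0 : κ → ℝ}
    (h0 : ∀ i, 0 ≤ u0 i) (hneg : u0 ⬝ᵥ (N *ᵥ u0) < 0) :
    ∃ (S : Finset κ) (u : S → ℝ), (∀ i, 0 < u i) ∧
      u ⬝ᵥ ((N.submatrix (fun i : S => (i : κ)) (fun i : S => (i : κ))) *ᵥ u) < 0 ∧
      ∀ w : S → ℝ, (∀ i, 0 ≤ w i) → (∃ j, w j = 0) →
        0 ≤ w ⬝ᵥ ((N.submatrix (fun i : S => (i : κ)) (fun i : S => (i : κ))) *ᵥ w) := by
  have hP : ∃ m : ℕ, ∃ v : κ → ℝ, (∀ i, 0 ≤ v i) ∧ v ⬝ᵥ (N *ᵥ v) < 0 ∧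
      (univ.filter fun i => v i ≠ 0).card = m := ⟨_, u0, h0, hneg, rfl⟩
  classical
  obtain ⟨v, hv, hvn, hvc⟩ := Nat.find_spec hP
  have hmin := fun m (hm : m < Nat.find hP) => Nat.find_min hP hm
  set S : Finset κ := univ.filter fun i => v i ≠ 0 with hS
  have hmS : ∀ i, i ∈ S ↔ v i ≠ 0 := fun i => by
    rw [hS, Finset.mem_filter]
    exact ⟨fun h => h.2, fun h => ⟨Finset.mem_univ _, h⟩⟩
  refine ⟨S, fun i => v i, fun i => lt_of_le_of_ne (hv i) (Ne.symm ((hmS i).1 i.2)), ?_, ?_⟩
  · rw [← qd_ext]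
    have : ext S (fun i : S => v i) = v := by
      funext i
      by_cases hi : i ∈ S
      · exact ext_mem (fun i : S => v i) ⟨i, hi⟩
      · rw [ext_not _ hi]
        by_contra h
        exact hi ((hmS i).2 (Ne.symm h))
    rw [this]
    exact hvn
  · intro w hw ⟨j, hj⟩
    by_contra hcon
    push Not at hcon
    rw [← qd_ext] at hcon
    refine hmin (univ.filter fun i => ext S w i ≠ 0).card ?_ ⟨ext S w, ?_, hcon, rfl⟩
    · rw [← hvc]
      apply Finset.card_lt_card
      rw [Finset.ssubset_iff_of_subset]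
      · refine ⟨j, j.2, ?_⟩
        rw [Finset.mem_filter, ext_mem, hj]
        simp
      · intro i hi
        rw [Finset.mem_filter] at hi
        by_contra h
        exact hi.2 (ext_not _ h)
    · intro i
      by_cases hi : i ∈ S
      · have := ext_mem w ⟨i, hi⟩
        simp only at this
        rw [this]
        exact hw _
      · rw [ext_not _ hi]

/-! ### The integer version -/

section Int

variable {ι : Type}

/-- the homogenization -/
def hom (G : ℤ) (M : Matrix ι ι ℤ) (b : ι → ℤ) : Matrix (Option ι) (Option ι) ℤ :=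
  fun i j => match i, j with
  | none, none => 2 * G
  | none, some j => b j
  | some i, none => b i
  | some i, some j => 2 * M i j

theorem hom_mulVec_none [Fintype ι] {R : Type} [CommRing R] (G : ℤ) (M : Matrix ι ι ℤ) (b : ι → ℤ)
    (x : Option ι → R) : ((hom G M b).map (fun z : ℤ => (z : R)) *ᵥ x) none =
      2 * G * x none + ∑ j, (b j : R) * x (some j) := by
  unfold mulVec dotProduct
  rw [Fintype.sum_option]
  simp [hom]

theorem hom_mulVec_some [Fintype ι] {R : Type} [CommRing R] (G : ℤ) (M : Matrix ι ι ℤ) (b : ι → ℤ)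
    (x : Option ι → R) (i : ι) : ((hom G M b).map (fun z : ℤ => (z : R)) *ᵥ x) (some i) =
      b i * x none + 2 * ∑ j, (M i j : R) * x (some j) := by
  unfold mulVec dotProduct
  rw [Fintype.sum_option, Finset.mul_sum]
  simp [hom, mul_assoc]

theorem hom_qd [Fintype ι] {R : Type} [CommRing R] (G : ℤ) (M : Matrix ι ι ℤ) (b : ι → ℤ)
    (x : Option ι → R) : x ⬝ᵥ ((hom G M b).map (fun z : ℤ => (z : R)) *ᵥ x) =
      2 * G * x none ^ 2 + 2 * x none * (∑ j, (b j : R) * x (some j)) +
        2 * ∑ i, ∑ j, x (some i) * (M i j : R) * x (some j) := by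
  change ∑ i, x i * _ = _
  rw [Fintype.sum_option, hom_mulVec_none]
  simp only [hom_mulVec_some, mul_add, Finset.sum_add_distrib, Finset.mul_sum]
  have e1 : ∀ i, x (some i) * (b i * x none) = x none * (b i * x (some i)) := fun i => by ring
  simp only [e1]
  have e2 : ∀ i j, x (some i) * (2 * ((M i j : R) * x (some j))) =
      2 * (x (some i) * (M i j : R) * x (some j)) := fun i j => by ring
  simp only [e2]
  have e3 : ∀ i, 2 * x none * ((b i : R) * x (some i)) =
      x none * (b i * x (some i)) + x none * (b i * x (some i)) := fun i => by ring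
  simp only [e3, Finset.sum_add_distrib]
  ring

theorem homZ [Fintype ι] (G : ℤ) (M : Matrix ι ι ℤ) (b : ι → ℤ) (x : Option ι → ℤ) :
    (hom G M b *ᵥ x) none = 2 * G * x none + ∑ j, b j * x (some j) ∧
    (∀ i, (hom G M b *ᵥ x) (some i) = b i * x none + 2 * ∑ j, M i j * x (some j)) ∧
    x ⬝ᵥ (hom G M b *ᵥ x) = 2 * G * x none ^ 2 + 2 * x none * (∑ j, b j * x (some j)) +
        2 * ∑ i, ∑ j, x (some i) * M i j * x (some j) := by
  have e : hom G M b = (hom G M b).map (fun z : ℤ => Int.cast z) := by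
    ext i j
    simp
  have h1 := hom_mulVec_none (R := ℤ) G M b x
  have h2 := fun i => hom_mulVec_some (R := ℤ) G M b x i
  have h3 := hom_qd (R := ℤ) G M b x
  rw [← e] at h1 h3
  refine ⟨by simpa using h1, fun i => ?_, by simpa using h3⟩
  have h4 := h2 i
  rw [← e] at h4
  simpa using h4

theorem hom_symm {G : ℤ} {M : Matrix ι ι ℤ} (hM : M.IsSymm) (b : ι → ℤ) :
    (hom G M b).IsSymm := by
  ext i j
  rw [transpose_apply]
  cases i <;> cases j
  · rfl
  · rfl
  · rfl
  · rename_i i j
    change 2 * M j i = 2 * M i j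
    rw [hM.apply]

/-- the bound for the entries of the adjugate matrix -/
def X0 (k β : ℕ) : ℕ := k.factorial * (2 * β) ^ k

theorem adj_bound {s : Type} [Fintype s] [DecidableEq s] (A : Matrix s s ℤ) {j : s} {β k : ℕ}
    (hβ : 1 ≤ β) (hk : Fintype.card s ≤ k) (hA : ∀ i, i ≠ j → ∀ l, |A i l| ≤ 2 * β) (i : s) :
    |A.adjugate i j| ≤ X0 k β := by
  rw [adjugate_apply]
  have h := Matrix.det_le (A := A.updateRow j (Pi.single i 1)) (abv := AbsoluteValue.abs)
    (x := 2 * (β : ℤ)) (fun a l => by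
      rw [AbsoluteValue.abs_apply]
      by_cases ha : a = j
      · rw [ha, updateRow_self]
        by_cases hl : l = i
        · rw [hl, Pi.single_eq_same]
          norm_num
          omega
        · rw [Pi.single_eq_of_ne hl]
          simp
      · rw [updateRow_ne ha]
        exact hA a ha l)
  rw [AbsoluteValue.abs_apply] at h
  refine h.trans ?_
  rw [nsmul_eq_mul]
  unfold X0
  push_cast
  have h1 : ((Fintype.card s).factorial : ℤ) ≤ (k.factorial : ℤ) := by
    exact_mod_cast Nat.factorial_le hk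
  have h2 : (2 * (β : ℤ)) ^ Fintype.card s ≤ (2 * (β : ℤ)) ^ k :=
    pow_le_pow_right₀ (by omega) hk
  exact mul_le_mul h1 h2 (by positivity) (by positivity)

/-- a column of the adjugate matrix, with a sign -/
def ycol {s : Type} [Fintype s] [DecidableEq s] (A : Matrix s s ℤ) (j i : s) : ℤ :=
  -A.det.sign * A.adjugate i j

theorem ycol_eq {s : Type} [Fintype s] [DecidableEq s] (A : Matrix s s ℤ) (j : s) :
    A *ᵥ ycol A j = Pi.single j (-|A.det|) := by
  funext i
  have h := congrFun (congrFun (Matrix.mul_adjugate A) i) j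
  rw [Matrix.mul_apply] at h
  have h1 : (A *ᵥ ycol A j) i = -A.det.sign * ∑ l, A i l * A.adjugate l j := by
    unfold mulVec dotProduct ycol
    rw [Finset.mul_sum]
    exact Finset.sum_congr rfl fun l _ => by ring
  rw [h1, h]
  by_cases hij : i = j
  · rw [hij, Pi.single_eq_same, Matrix.smul_apply, Matrix.one_apply_eq, smul_eq_mul, mul_one,
      neg_mul, Int.sign_mul_self_eq_abs]
  · rw [Pi.single_eq_of_ne hij, Matrix.smul_apply, Matrix.one_apply_ne hij, smul_zero, mul_zero]

theorem ycol_abs {s : Type} [Fintype s] [DecidableEq s] (A : Matrix s s ℤ) (j i : s) :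
    |ycol A j i| ≤ |A.adjugate i j| := by
  unfold ycol
  rw [abs_mul]
  have : |-A.det.sign| ≤ 1 := by
    rcases lt_trichotomy A.det 0 with h | h | h
    · rw [Int.sign_eq_neg_one_of_neg h]; norm_num
    · rw [h]; norm_num
    · rw [Int.sign_eq_one_of_pos h]; norm_num
  calc |-A.det.sign| * |A.adjugate i j| ≤ 1 * |A.adjugate i j| :=
        mul_le_mul_of_nonneg_right this (abs_nonneg _)
    _ = _ := one_mul _

theorem sw [Fintype ι] [DecidableEq ι] {M : Matrix ι ι ℤ} (hM : M.IsSymm) {b : ι → ℤ} {β k : ℕ}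
    (hβ : 1 ≤ β) (hMβ : ∀ i j, |M i j| ≤ β) (hbβ : ∀ i, |b i| ≤ β)
    (hk : Fintype.card ι + 1 ≤ k) {l : ι → ℝ} (hl : ∀ i, 0 ≤ l i)
    (hneg : ∑ i, ∑ j, l i * M i j * l j + ∑ i, b i * l i < -((k * β * X0 k β : ℕ) : ℝ)) :
    ∃ μ : ι → ℤ, (∀ i, 0 ≤ μ i ∧ μ i ≤ k * X0 k β) ∧
      (∑ i, ∑ j, μ i * M i j * μ j < 0 ∨
        (∑ i, ∑ j, μ i * M i j * μ j = 0 ∧ ∑ i, b i * μ i < 0)) := by
  classical
  set G : ℤ := ((k * β * X0 k β : ℕ) : ℤ) with hG
  set N := hom G M b with hN
  set c : ℤ → ℝ := fun z => (z : ℝ) with hc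
  -- a negative vector
  obtain ⟨S, u, hu, hneg', hmin⟩ := exists_min (N.map c)
    (u0 := fun i => match i with | none => 1 | some i => l i)
    (by rintro (_ | i); exacts [zero_le_one, hl i]) (by
      rw [hN, hc, hom_qd]
      have e : (G : ℝ) = ((k * β * X0 k β : ℕ) : ℝ) := by rw [hG]; simp
      rw [e]
      simp only [one_pow, mul_one]
      linarith)
  set A : Matrix S S ℤ := N.submatrix (fun i : S => (i : Option ι)) (fun i : S => (i : Option ι))
    with hA
  have hAc : (N.map c).submatrix (fun i : S => (i : Option ι)) (fun i : S => (i : Option ι)) =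
      A.map c := rfl
  rw [hAc] at hneg' hmin
  have hNs : N.IsSymm := hom_symm hM b
  have hAs : (A.map c).IsSymm := by
    ext i j
    simp only [transpose_apply, map_apply, hA, submatrix_apply]
    rw [hNs.apply]
  have hdet : A.det ≠ 0 := by
    intro h
    apply det_ne hAs hmin hu hneg'
    have h2 : (A.map c).det = ((A.det : ℤ) : ℝ) := (Int.cast_det A).symm
    rw [h2, h]
    simp
  have hd0 : (0 : ℝ) < ((|A.det| : ℤ) : ℝ) := by exact_mod_cast abs_pos.2 hdet
  have hy0 : ∀ j i : S, 0 ≤ ycol A j i := by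
    intro j i
    have h := col_nonneg hAs hmin hu hneg' (x := fun i => ((ycol A j i : ℤ) : ℝ)) (j := j) hd0 (by
      funext i
      have h1 := congrFun (ycol_eq A j) i
      have h2 : ((A.map c) *ᵥ fun i => ((ycol A j i : ℤ) : ℝ)) i =
          (((A *ᵥ ycol A j) i : ℤ) : ℝ) := by
        unfold mulVec dotProduct
        push_cast
        rfl
      rw [h2, h1]
      by_cases hij : i = j
      · rw [hij, Pi.single_eq_same, Pi.single_eq_same]
        push_cast
        rfl
      · rw [Pi.single_eq_of_ne hij, Pi.single_eq_of_ne hij]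
        simp) i
    exact_mod_cast h
  have hcard : Fintype.card S ≤ k := by
    rw [Fintype.card_coe]
    refine (Finset.card_le_univ S).trans ?_
    rw [Fintype.card_option]
    exact hk
  have hNe : ∀ (i : Option ι), i ≠ none → ∀ l, |N i l| ≤ 2 * β := by
    intro i hi l
    obtain ⟨i, rfl⟩ := Option.ne_none_iff_exists'.1 hi
    rcases l with _ | l
    · have := hbβ i
      change |b i| ≤ _
      omega
    · have := hMβ i l
      change |2 * M i l| ≤ _
      rw [abs_mul]
      norm_num
      exact this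
  -- the last case distinction
  by_cases hS : none ∈ S
  · set e : S := ⟨none, hS⟩ with he
    set Y : Option ι → ℤ := ext S (ycol A e) with hY
    have hYb : ∀ i, 0 ≤ Y i ∧ Y i ≤ X0 k β := by
      intro i
      by_cases hi : i ∈ S
      · have e1 : Y i = ycol A e ⟨i, hi⟩ := ext_mem (ycol A e) ⟨i, hi⟩
        rw [e1]
        refine ⟨hy0 _ _, (le_abs_self _).trans ((ycol_abs A e _).trans ?_)⟩
        exact adj_bound A hβ hcard (fun i hi l => hNe i (fun h => hi (Subtype.ext h)) l) _
      · rw [hY, ext_not _ hi]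
        exact ⟨le_rfl, by positivity⟩
    have hrow : ∀ i : S, (N *ᵥ Y) i = (Pi.single e (-|A.det|) : S → ℤ) i := by
      intro i
      rw [hY, mulVec_ext]
      exact congrFun (ycol_eq A e) i
    obtain ⟨z1, z2, _⟩ := homZ G M b Y
    have hr0 := hrow e
    rw [Pi.single_eq_same, hN] at hr0
    change (hom G M b *ᵥ Y) none = _ at hr0
    rw [z1] at hr0
    have hdpos : 0 < |A.det| := abs_pos.2 hdet
    have hbY : -(k * β * X0 k β : ℤ) ≤ ∑ j, b j * Y (some j) := by
      have h1 : ∀ j, -(β * X0 k β : ℤ) ≤ b j * Y (some j) := by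
        intro j
        have h2 := (hYb (some j))
        have h3 := abs_le.1 (hbβ j)
        nlinarith [h2.1, h2.2, h3.1, mul_nonneg (show (0:ℤ) ≤ β by positivity) (sub_nonneg.2 h2.2)]
      have h2 := Finset.sum_le_sum fun j (_ : j ∈ (Finset.univ : Finset ι)) => h1 j
      rw [Finset.sum_const, Finset.card_univ, nsmul_eq_mul] at h2
      refine le_trans ?_ h2
      have h3 : (Fintype.card ι : ℤ) ≤ k := by omega
      have h4 : (0 : ℤ) ≤ β * X0 k β := by positivity
      nlinarith
    have hx0 : Y none = 0 := by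
      by_contra hne
      have h1 : 1 ≤ Y none := by
        have := (hYb none).1
        omega
      have h2 : 2 * G ≤ 2 * G * Y none := by
        have : 0 ≤ 2 * G := by rw [hG]; positivity
        nlinarith
      have h3 : G = (k * β * X0 k β : ℤ) := by rw [hG]; push_cast; ring
      have h4 : 0 ≤ G := by rw [hG]; positivity
      linarith
    rw [hx0, mul_zero, zero_add] at hr0
    have hzero : ∑ i, ∑ j, Y (some i) * M i j * Y (some j) = 0 := by
      refine Finset.sum_eq_zero fun i _ => ?_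
      by_cases hi : some i ∈ S
      · have h1 := hrow ⟨some i, hi⟩
        rw [Pi.single_eq_of_ne (by
          intro h
          have := congrArg Subtype.val h
          simp [he] at this), hN] at h1
        change (hom G M b *ᵥ Y) (some i) = 0 at h1
        rw [z2, hx0] at h1
        simp only [mul_zero, zero_add] at h1
        have h2 : ∑ j, M i j * Y (some j) = 0 := by omega
        have h3 : ∑ j, Y (some i) * M i j * Y (some j) =
            Y (some i) * ∑ j, M i j * Y (some j) := by
          rw [Finset.mul_sum]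
          exact Finset.sum_congr rfl fun j _ => by ring
        rw [h3, h2, mul_zero]
      · refine Finset.sum_eq_zero fun j _ => ?_
        have : Y (some i) = 0 := ext_not _ hi
        rw [this]
        ring
    refine ⟨fun i => Y (some i), fun i => ⟨(hYb _).1, (hYb _).2.trans ?_⟩, Or.inr ⟨hzero, ?_⟩⟩
    · have h1 : (1 : ℤ) ≤ k := by omega
      have h2 : (0 : ℤ) ≤ X0 k β := by positivity
      nlinarith
    · rw [hr0]
      linarith
  · set Yj : S → Option ι → ℤ := fun j => ext S (ycol A j) with hYj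
    have hYb : ∀ j i, 0 ≤ Yj j i ∧ Yj j i ≤ X0 k β := by
      intro j i
      by_cases hi : i ∈ S
      · have e1 : Yj j i = ycol A j ⟨i, hi⟩ := ext_mem (ycol A j) ⟨i, hi⟩
        rw [e1]
        refine ⟨hy0 _ _, (le_abs_self _).trans ((ycol_abs A j _).trans ?_)⟩
        refine adj_bound A hβ hcard (fun i _ l => hNe i (fun h => hS ?_) l) _
        rw [← h]
        exact i.2
      · rw [hYj]
        simp only
        rw [ext_not _ hi]
        exact ⟨le_rfl, by positivity⟩
    set y : S → ℤ := fun i => ∑ j, ycol A j i with hy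
    set Y : Option ι → ℤ := ext S y with hY
    have hYY : ∀ i, Y i = ∑ j, Yj j i := by
      intro i
      by_cases hi : i ∈ S
      · have e1 : Y i = y ⟨i, hi⟩ := ext_mem y ⟨i, hi⟩
        rw [e1, hy]
        exact Finset.sum_congr rfl fun j _ => (ext_mem (ycol A j) ⟨i, hi⟩).symm
      · rw [hY, ext_not _ hi]
        symm
        exact Finset.sum_eq_zero fun j _ => ext_not _ hi
    have hAy : ∀ i, (A *ᵥ y) i = -|A.det| := by
      intro i
      have h1 : (A *ᵥ y) i = ∑ j, (A *ᵥ ycol A j) i := by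
        unfold mulVec dotProduct
        rw [hy, Finset.sum_comm]
        exact Finset.sum_congr rfl fun l _ => by rw [Finset.mul_sum]
      rw [h1]
      simp only [ycol_eq]
      rw [Finset.sum_eq_single i]
      · rw [Pi.single_eq_same]
      · intro j _ hj
        rw [Pi.single_eq_of_ne (Ne.symm hj)]
      · intro h
        exact absurd (Finset.mem_univ _) h
    have hy0' : ∀ i, 0 ≤ y i := fun i => Finset.sum_nonneg fun j _ => hy0 j i
    have hSne : S.Nonempty := by
      rw [Finset.nonempty_iff_ne_empty]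
      rintro rfl
      have : u ⬝ᵥ ((A.map c) *ᵥ u) = 0 := by
        unfold dotProduct
        exact Finset.sum_eq_zero fun i _ => absurd i.2 (Finset.notMem_empty _)
      linarith
    obtain ⟨i0, hi0⟩ := hSne
    have hypos : 0 < ∑ i, y i := by
      by_contra hcon
      push Not at hcon
      have h1 : ∀ i, y i = 0 := by
        intro i
        have h2 := Finset.single_le_sum (f := y) (fun i _ => hy0' i) (Finset.mem_univ i)
        have := hy0' i
        omega
      have h2 := hAy ⟨i0, hi0⟩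
      have h3 : (A *ᵥ y) ⟨i0, hi0⟩ = 0 := by
        unfold mulVec dotProduct
        exact Finset.sum_eq_zero fun i _ => by rw [h1, mul_zero]
      rw [h3] at h2
      have := abs_pos.2 hdet
      omega
    have hq : Y ⬝ᵥ (N *ᵥ Y) < 0 := by
      rw [hY, qd_ext]
      change y ⬝ᵥ (A *ᵥ y) < 0
      have h1 : y ⬝ᵥ (A *ᵥ y) = -|A.det| * ∑ i, y i := by
        unfold dotProduct
        rw [Finset.mul_sum]
        exact Finset.sum_congr rfl fun i _ => by rw [hAy]; ring
      rw [h1]
      have := abs_pos.2 hdet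
      nlinarith
    have hY0 : Y none = 0 := ext_not _ hS
    have hq2 : Y ⬝ᵥ (N *ᵥ Y) = 2 * ∑ i, ∑ j, Y (some i) * M i j * Y (some j) := by
      rw [hN, (homZ G M b Y).2.2, hY0]
      simp
    have hlt : ∑ i, ∑ j, Y (some i) * M i j * Y (some j) < 0 := by omega
    refine ⟨fun i => Y (some i), fun i => ?_, Or.inl hlt⟩
    simp only
    rw [hYY]
    refine ⟨Finset.sum_nonneg fun j _ => (hYb j _).1, ?_⟩
    have h1 := Finset.sum_le_sum fun j (_ : j ∈ (Finset.univ : Finset S)) => (hYb j (some i)).2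
    rw [Finset.sum_const, Finset.card_univ, nsmul_eq_mul] at h1
    refine h1.trans ?_
    have h3 : (Fintype.card S : ℤ) ≤ k := by exact_mod_cast hcard
    have h4 : (0 : ℤ) ≤ X0 k β := by positivity
    nlinarith

end Int

end Pool.Agent.W2helper57.TUU
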