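import Pool.Agent.W2helper57.TU.Quad
import Pool.Agent.W2helper57.TUU.SW

set_option autoImplicit false

/-!
# Small certificates of unboundedness
-/

namespace Pool.Agent.W2helper57.TUU

open Finset Pool.Agent.W2helper57.TU

section

variable {n : ℕ} {R : Set (Fin n → ℤ)} {ρ : Type} [Fintype ρ] {W : ρ → Fin n → ℤ} {w : ρ → ℤ}

theorem lsum_filter (P : ℕ × (Fin n → ℤ) → Bool) : ∀ L : List (ℕ × (Fin n → ℤ)),
    lsum L = lsum (L.filter P) + lsum (L.filter fun p => !P p) := by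
  intro L
  induction L with
  | nil => simp [lsum_nil]
  | cons p L ih =>
    rw [lsum_cons, ih]
    cases hp : P p
    · rw [List.filter_cons_of_neg (by simp [hp]), List.filter_cons_of_pos (by simp [hp]),
        lsum_cons]
      abel
    · rw [List.filter_cons_of_pos (by simp [hp]), List.filter_cons_of_neg (by simp [hp]),
        lsum_cons]
      abel

theorem lsum_get : ∀ L : List (ℕ × (Fin n → ℤ)), ∀ j,
    lsum L j = ∑ i : Fin L.length, ((L.get i).1 : ℤ) * (L.get i).2 j := by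
  intro L
  induction L with
  | nil => intro j; simp [lsum_nil]
  | cons p L ih =>
    intro j
    rw [lsum_cons]
    simp only [Pi.add_apply, Pi.smul_apply, smul_eq_mul]
    rw [ih j]
    exact (Fin.sum_univ_succ (n := L.length)
      (fun i => (((p :: L).get i).1 : ℤ) * ((p :: L).get i).2 j)).symm

theorem abs_dz_le (v x : Fin n → ℤ) {V B : ℤ} (hB : 0 ≤ B) (hv : ∑ j, |v j| ≤ V)
    (hx : ∀ j, |x j| ≤ B) : |dz v x| ≤ V * B := by
  unfold dz
  calc |∑ j, v j * x j| ≤ ∑ j, |v j * x j| := Finset.abs_sum_le_sum_abs _ _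
    _ ≤ ∑ j, |v j| * B := by
        refine Finset.sum_le_sum fun j _ => ?_
        rw [abs_mul]
        exact mul_le_mul_of_nonneg_left (hx j) (abs_nonneg _)
    _ = (∑ j, |v j|) * B := by rw [Finset.sum_mul]
    _ ≤ V * B := mul_le_mul_of_nonneg_right hv hB

theorem pow_le_two_pow {a b : ℕ} (h : a ≤ b) : (2 : ℤ) ^ a ≤ 2 ^ b :=
  pow_le_pow_right₀ (by norm_num) h

/-- bounds -/
theorem X0_le {u : ℕ} (hu : 2 ≤ u) : X0 u (2 ^ (7 * u)) ≤ 2 ^ (9 * u ^ 2) := by
  unfold X0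
  have h1 : u.factorial ≤ 2 ^ (u * u) := by
    calc u.factorial ≤ u ^ u := Nat.factorial_le_pow u
      _ ≤ (2 ^ u) ^ u := Nat.pow_le_pow_left (Nat.lt_two_pow_self).le u
      _ = 2 ^ (u * u) := by rw [← pow_mul]
  have h2 : (2 * 2 ^ (7 * u)) ^ u = 2 ^ ((7 * u + 1) * u) := by
    rw [← pow_succ', ← pow_mul]
  rw [h2]
  calc u.factorial * 2 ^ ((7 * u + 1) * u) ≤ 2 ^ (u * u) * 2 ^ ((7 * u + 1) * u) :=
        Nat.mul_le_mul_right _ h1
    _ = 2 ^ (u * u + (7 * u + 1) * u) := by rw [← pow_add]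
    _ ≤ 2 ^ (9 * u ^ 2) := Nat.pow_le_pow_right (by norm_num) (by nlinarith)

theorem abs_qf_le {q h : Fin n → ℤ} {u : ℕ} (hu2 : 2 ≤ u) (hq : ∑ j, |q j| ≤ 2 ^ u)
    (hh : ∑ j, |h j| ≤ 2 ^ u) {x1 : Fin n → ℤ} (hx1b : ∀ j, |x1 j| ≤ 2 ^ (5 * u)) :
    |qf q h x1| ≤ 2 ^ (12 * u ^ 2) := by
  unfold qf
  calc |∑ j, (q j * x1 j ^ 2 + h j * x1 j)| ≤ ∑ j, |q j * x1 j ^ 2 + h j * x1 j| :=
        Finset.abs_sum_le_sum_abs _ _
    _ ≤ ∑ j, (|q j| * 2 ^ (10 * u) + |h j| * 2 ^ (10 * u)) := by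
        refine Finset.sum_le_sum fun j _ => (abs_add_le _ _).trans ?_
        have h1 := hx1b j
        have h2 : |x1 j| ^ 2 ≤ 2 ^ (10 * u) := by
          calc |x1 j| ^ 2 ≤ (2 ^ (5 * u)) ^ 2 := pow_le_pow_left₀ (abs_nonneg _) h1 2
            _ = 2 ^ (10 * u) := by rw [← pow_mul]; congr 1; ring
        have h3 : |x1 j| ≤ 2 ^ (10 * u) := h1.trans (pow_le_two_pow (by omega))
        rw [abs_mul, abs_mul, abs_pow]
        exact add_le_add (mul_le_mul_of_nonneg_left h2 (abs_nonneg _))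
          (mul_le_mul_of_nonneg_left h3 (abs_nonneg _))
    _ = (∑ j, |q j| + ∑ j, |h j|) * 2 ^ (10 * u) := by
        rw [Finset.sum_add_distrib, ← Finset.sum_mul, ← Finset.sum_mul]
        ring
    _ ≤ (2 ^ u + 2 ^ u) * 2 ^ (10 * u) :=
        mul_le_mul_of_nonneg_right (add_le_add hq hh) (by positivity)
    _ = 2 ^ (11 * u + 1) := by
        rw [pow_succ, show 11 * u = u + 10 * u by ring, pow_add]
        ring
    _ ≤ 2 ^ (12 * u ^ 2) := pow_le_two_pow (by nlinarith)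

theorem abs_grad_le {q h : Fin n → ℤ} {u : ℕ} (hu2 : 2 ≤ u) (hq : ∑ j, |q j| ≤ 2 ^ u)
    (hh : ∑ j, |h j| ≤ 2 ^ u) {x1 d : Fin n → ℤ} (hx1b : ∀ j, |x1 j| ≤ 2 ^ (5 * u))
    (hd : ∀ j, |d j| ≤ 2 ^ (11 * u ^ 2)) :
    |∑ j, (2 * q j * x1 j + h j) * d j| ≤ 2 ^ (15 * u ^ 2) := by
  calc |∑ j, (2 * q j * x1 j + h j) * d j| ≤ ∑ j, |(2 * q j * x1 j + h j) * d j| :=
        Finset.abs_sum_le_sum_abs _ _
    _ ≤ ∑ j, (|q j| * (2 * 2 ^ (5 * u)) + |h j|) * 2 ^ (11 * u ^ 2) := by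
        refine Finset.sum_le_sum fun t _ => ?_
        rw [abs_mul]
        have h2 := hx1b t
        have h3 : |2 * q t * x1 t + h t| ≤ |q t| * (2 * 2 ^ (5 * u)) + |h t| := by
          refine (abs_add_le _ _).trans ?_
          rw [abs_mul, abs_mul]
          have : |(2 : ℤ)| = 2 := rfl
          rw [this]
          have h4 := mul_le_mul_of_nonneg_left h2 (abs_nonneg (q t))
          nlinarith
        exact mul_le_mul h3 (hd t) (abs_nonneg _) (by positivity)
    _ = ((∑ t, |q t|) * (2 * 2 ^ (5 * u)) + ∑ t, |h t|) * 2 ^ (11 * u ^ 2) := by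
        rw [← Finset.sum_mul, Finset.sum_add_distrib, Finset.sum_mul]
    _ ≤ (2 ^ u * (2 * 2 ^ (5 * u)) + 2 ^ u) * 2 ^ (11 * u ^ 2) := by
        refine mul_le_mul_of_nonneg_right ?_ (by positivity)
        have := mul_le_mul_of_nonneg_right hq (by positivity : (0:ℤ) ≤ 2 * 2 ^ (5 * u))
        linarith
    _ ≤ 2 ^ (7 * u) * 2 ^ (11 * u ^ 2) := by
        refine mul_le_mul_of_nonneg_right ?_ (by positivity)
        have h4 : (2 : ℤ) ^ u * (2 * 2 ^ (5 * u)) = 2 ^ (6 * u + 1) := by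
          rw [pow_succ, show 6 * u = u + 5 * u by ring, pow_add]
          ring
        have h5 : (2 : ℤ) ^ u ≤ 2 ^ (6 * u + 1) := pow_le_two_pow (by omega)
        have h6 : (2 : ℤ) ^ (6 * u + 2) ≤ 2 ^ (7 * u) := pow_le_two_pow (by omega)
        have h7 : (2 : ℤ) ^ (6 * u + 2) = 2 ^ (6 * u + 1) + 2 ^ (6 * u + 1) := by
          rw [pow_succ]
          ring
        linarith
    _ ≤ 2 ^ (15 * u ^ 2) := by
        rw [← pow_add]
        exact pow_le_two_pow (by nlinarith)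

theorem exists_ray (hR : Um R) (hW : ∀ r, W r ∈ R) {q h : Fin n → ℤ} {u : ℕ}
    (hu : n + Fintype.card ρ + 2 ≤ u) (hq : ∑ j, |q j| ≤ 2 ^ u) (hh : ∑ j, |h j| ≤ 2 ^ u)
    (hw : ∑ r, |w r| ≤ 2 ^ u) (hWr : ∀ r, ∑ j, |W r j| ≤ 2 ^ u)
    {x : Fin n → ℤ} (hx : x ∈ Fs W w) (hfx : qf q h x < -2 ^ (20 * u ^ 2)) :
    ∃ x1 ∈ Fs W w, ∃ d : Fin n → ℤ, (∀ r, dz (W r) d ≤ 0) ∧ (∀ j, |x1 j| ≤ 2 ^ (5 * u)) ∧
      (∀ j, |d j| ≤ 2 ^ (11 * u ^ 2)) ∧ (∑ j, q j * d j ^ 2 < 0 ∨
        (∑ j, q j * d j ^ 2 = 0 ∧ ∑ j, (2 * q j * x1 j + h j) * d j < 0)) := by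
  classical
  have hu2 : 2 ≤ u := by omega
  obtain ⟨x0, hx0, hx0b⟩ := exists_small hR hW (w := w) ⟨x, hx⟩
  have hx0b' : ∀ j, |x0 j| ≤ 2 ^ u := by
    intro j
    have h1 := hx0b j
    have h2 : ((∑ r, (w r).natAbs : ℕ) : ℤ) = ∑ r, |w r| := by
      push_cast
      rfl
    rw [Int.abs_eq_natAbs]
    have h3 : ((x0 j).natAbs : ℤ) ≤ ((∑ r, (w r).natAbs : ℕ) : ℤ) := by exact_mod_cast h1
    rw [h2] at h3
    exact h3.trans hw
  have hF := fam_fam hR hW
  set z := x - x0 with hz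
  have hcard : (univ.filter fun k => dz (fam W k) z ≠ 0).card ≤ n + Fintype.card ρ := by
    refine (Finset.card_le_univ _).trans ?_
    rw [Fintype.card_sum, Fintype.card_fin]
  obtain ⟨L, hL1, hL2, hL3⟩ := decomp hF _ z hcard
  have hL : ∀ p ∈ L, Cf (fam W) z p.2 := fun p hp => (hL2 p hp).2
  have hzj : ∀ c : Fin n → ℤ, ∀ j, dz (fam W (Sum.inl j)) c = c j := by
    intro c j
    change dz (Pi.single j 1) c = _
    rw [dz_single]
  have hc1 : ∀ p ∈ L, ∀ j, |p.2 j| ≤ 1 := by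
    intro p hp j
    have := hL p hp (Sum.inl j)
    rw [hzj, hzj] at this
    rcases this with h1 | h1
    · rw [h1]; norm_num
    · rw [h1]
      rcases sgn_cases (z j) with ⟨h2, _⟩ | ⟨h2, _⟩ | ⟨h2, _⟩ <;> rw [h2] <;> norm_num
  set P : ℕ × (Fin n → ℤ) → Bool := fun p => decide (∃ r, 0 < dz (W r) p.2) with hP
  set L1 := L.filter P with hL1'
  set L2 := L.filter (fun p => !P p) with hL2'
  have hL1L : ∀ p ∈ L1, p ∈ L := fun p hp => (List.mem_filter.1 hp).1
  have hL2L : ∀ p ∈ L2, p ∈ L := fun p hp => (List.mem_filter.1 hp).1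
  have hsplit : z = lsum L1 + lsum L2 := by rw [hL3]; exact lsum_filter P L
  set x1 := x0 + lsum L1 with hx1
  have hx1x : x = x1 + lsum L2 := by
    rw [hx1, add_assoc, ← hsplit, hz]
    simp
  -- `x1` is feasible
  have hx1F : x1 ∈ Fs W w := by
    intro r
    rw [hx1, dz_add]
    have h1 := natAbs_decomp (z := z) L1 (fun p hp => hL p (hL1L p hp)) (Sum.inr r)
    change dz (W r) (lsum L1) = (dz (W r) z).sign *
      ((L1.map fun p => p.1 * (dz (W r) p.2).natAbs).sum : ℕ) at h1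
    have h2 := natAbs_eq_sum hL hL3 (Sum.inr r)
    change (dz (W r) z).natAbs = (L.map fun p => p.1 * (dz (W r) p.2).natAbs).sum at h2
    have h3 : (L1.map fun p => p.1 * (dz (W r) p.2).natAbs).sum ≤
        (L.map fun p => p.1 * (dz (W r) p.2).natAbs).sum := by
      refine List.Sublist.sum_le_sum (List.Sublist.map _ List.filter_sublist) ?_
      intro a _
      exact Nat.zero_le _
    rw [← h2] at h3
    have h4 := hx0 r
    have h5 := hx r
    have h6 : dz (W r) z = dz (W r) x - dz (W r) x0 := by rw [hz, dz_sub]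
    rw [h1]
    rcases sgn_cases (dz (W r) z) with ⟨h7, h8⟩ | ⟨h7, h8⟩ | ⟨h7, h8⟩
    · rw [h7, one_mul]
      omega
    · rw [h7, zero_mul]
      linarith
    · rw [h7]
      omega
  -- bounds for `x1`
  have hL1b : ∀ p ∈ L1, (p.1 : ℤ) ≤ 2 ^ (2 * u + 1) := by
    intro p hp
    have h1 := of_decide_eq_true (List.mem_filter.1 hp).2
    obtain ⟨r, hr⟩ := h1
    have h2 := part_le hL hL3 (hL1L p hp) (Sum.inr r) (by
      change dz (W r) p.2 ≠ 0
      omega)
    change p.1 ≤ (dz (W r) z).natAbs at h2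
    have h3 : 0 < dz (W r) z := by
      rcases hL p (hL1L p hp) (Sum.inr r) with h4 | h4
      · change dz (W r) p.2 = 0 at h4
        omega
      · change dz (W r) p.2 = (dz (W r) z).sign at h4
        rcases sgn_cases (dz (W r) z) with ⟨h7, h8⟩ | ⟨h7, h8⟩ | ⟨h7, h8⟩ <;> omega
    have h6 : dz (W r) z = dz (W r) x - dz (W r) x0 := by rw [hz, dz_sub]
    have h5 := hx r
    have h7 := abs_dz_le (W r) x0 (by positivity) (hWr r) hx0b'
    have h8 : |w r| ≤ 2 ^ u :=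
      (Finset.single_le_sum (f := fun r => |w r|) (fun _ _ => abs_nonneg _)
        (Finset.mem_univ r)).trans hw
    have h9 : (2 : ℤ) ^ (2 * u + 1) = 2 ^ u * 2 ^ u + 2 ^ u * 2 ^ u := by
      rw [pow_succ, two_mul, pow_add]
      ring
    have h10 : (1 : ℤ) ≤ 2 ^ u := one_le_pow₀ (by norm_num)
    have h11 : (2 : ℤ) ^ u ≤ 2 ^ u * 2 ^ u := by nlinarith
    have h12 := (abs_le.1 h7).1
    have h13 := (abs_le.1 h8).2
    omega
  have hlen : ((L.length : ℕ) : ℤ) ≤ 2 ^ u := by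
    have h1 : L.length ≤ u := by omega
    have h2 : u < 2 ^ u := Nat.lt_two_pow_self
    have h3 : L.length ≤ 2 ^ u := by omega
    exact_mod_cast h3
  have hx1b : ∀ j, |x1 j| ≤ 2 ^ (5 * u) := by
    intro j
    have h1 : |lsum L1 j| ≤ 2 ^ u * 2 ^ (2 * u + 1) := by
      rw [lsum_get]
      calc |∑ i : Fin L1.length, ((L1.get i).1 : ℤ) * (L1.get i).2 j|
          ≤ ∑ i : Fin L1.length, |((L1.get i).1 : ℤ) * (L1.get i).2 j| :=
            Finset.abs_sum_le_sum_abs _ _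
        _ ≤ ∑ i : Fin L1.length, 2 ^ (2 * u + 1) := by
            refine Finset.sum_le_sum fun i _ => ?_
            have h2 := hL1b _ (List.get_mem L1 i)
            have h3 := hc1 _ (hL1L _ (List.get_mem L1 i)) j
            rw [abs_mul, Nat.abs_cast]
            calc ((L1.get i).1 : ℤ) * |(L1.get i).2 j| ≤ ((L1.get i).1 : ℤ) * 1 :=
                  mul_le_mul_of_nonneg_left h3 (by positivity)
              _ ≤ _ := by rw [mul_one]; exact h2
        _ = (L1.length : ℤ) * 2 ^ (2 * u + 1) := by simp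
        _ ≤ _ := by
            refine mul_le_mul_of_nonneg_right (le_trans ?_ hlen) (by positivity)
            exact_mod_cast List.length_filter_le _ _
    have h2 : |x1 j| ≤ |x0 j| + |lsum L1 j| := by
      rw [hx1]
      exact abs_add_le _ _
    have h3 := hx0b' j
    have h4 : (2 : ℤ) ^ u * 2 ^ (2 * u + 1) = 2 ^ (3 * u + 1) := by
      rw [← pow_add]
      congr 1
      omega
    have h5 : (2 : ℤ) ^ u ≤ 2 ^ (3 * u + 1) := pow_le_two_pow (by omega)
    have h6 : (2 : ℤ) ^ (3 * u + 2) ≤ 2 ^ (5 * u) := pow_le_two_pow (by omega)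
    have h7 : (2 : ℤ) ^ (3 * u + 2) = 2 ^ (3 * u + 1) + 2 ^ (3 * u + 1) := by
      rw [pow_succ]
      ring
    linarith
  -- the quadratic function in the multiplicities
  set ι := Fin L2.length with hι
  set c : ι → Fin n → ℤ := fun i => (L2.get i).2 with hc
  set M : Matrix ι ι ℤ := fun i j => ∑ t, q t * c i t * c j t with hM
  set b : ι → ℤ := fun i => ∑ t, (2 * q t * x1 t + h t) * c i t with hb
  have hcb : ∀ i t, |c i t| ≤ 1 := fun i t => hc1 _ (hL2L _ (List.get_mem L2 i)) t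
  have hMs : M.IsSymm := by
    ext i j
    change ∑ t, q t * c j t * c i t = ∑ t, q t * c i t * c j t
    exact Finset.sum_congr rfl fun t _ => by ring
  have hMb : ∀ i j, |M i j| ≤ ((2 ^ (7 * u) : ℕ) : ℤ) := by
    intro i j
    calc |M i j| ≤ ∑ t, |q t * c i t * c j t| := Finset.abs_sum_le_sum_abs _ _
      _ ≤ ∑ t, |q t| := by
          refine Finset.sum_le_sum fun t _ => ?_
          rw [abs_mul, abs_mul]
          have h1 := hcb i t
          have h2 := hcb j t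
          calc |q t| * |c i t| * |c j t| ≤ |q t| * 1 * 1 := by
                refine mul_le_mul (mul_le_mul_of_nonneg_left h1 (abs_nonneg _)) h2
                  (abs_nonneg _) (by positivity)
            _ = |q t| := by ring
      _ ≤ 2 ^ u := hq
      _ ≤ 2 ^ (7 * u) := pow_le_two_pow (by omega)
      _ = _ := by push_cast; rfl
  have hbb : ∀ i, |b i| ≤ ((2 ^ (7 * u) : ℕ) : ℤ) := by
    intro i
    calc |b i| ≤ ∑ t, |(2 * q t * x1 t + h t) * c i t| := Finset.abs_sum_le_sum_abs _ _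
      _ ≤ ∑ t, (|q t| * (2 * 2 ^ (5 * u)) + |h t|) := by
          refine Finset.sum_le_sum fun t _ => ?_
          rw [abs_mul]
          have h1 := hcb i t
          have h2 := hx1b t
          have h3 : |2 * q t * x1 t + h t| ≤ |q t| * (2 * 2 ^ (5 * u)) + |h t| := by
            refine (abs_add_le _ _).trans ?_
            rw [abs_mul, abs_mul]
            have : |(2 : ℤ)| = 2 := rfl
            rw [this]
            have h4 := mul_le_mul_of_nonneg_left h2 (abs_nonneg (q t))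
            nlinarith
          calc |2 * q t * x1 t + h t| * |c i t| ≤ |2 * q t * x1 t + h t| * 1 :=
                mul_le_mul_of_nonneg_left h1 (abs_nonneg _)
            _ ≤ _ := by rw [mul_one]; exact h3
      _ = (∑ t, |q t|) * (2 * 2 ^ (5 * u)) + ∑ t, |h t| := by
          rw [Finset.sum_add_distrib, Finset.sum_mul]
      _ ≤ 2 ^ u * (2 * 2 ^ (5 * u)) + 2 ^ u := by
          have := mul_le_mul_of_nonneg_right hq (by positivity : (0:ℤ) ≤ 2 * 2 ^ (5 * u))
          linarith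
      _ ≤ 2 ^ (7 * u) := by
          have h4 : (2 : ℤ) ^ u * (2 * 2 ^ (5 * u)) = 2 ^ (6 * u + 1) := by
            rw [pow_succ, show 6 * u = u + 5 * u by ring, pow_add]
            ring
          have h5 : (2 : ℤ) ^ u ≤ 2 ^ (6 * u + 1) := pow_le_two_pow (by omega)
          have h6 : (2 : ℤ) ^ (6 * u + 2) ≤ 2 ^ (7 * u) := pow_le_two_pow (by omega)
          have h7 : (2 : ℤ) ^ (6 * u + 2) = 2 ^ (6 * u + 1) + 2 ^ (6 * u + 1) := by
            rw [pow_succ]
            ring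
          linarith
      _ = _ := by push_cast; rfl
  have hcomb : ∀ l : ι → ℤ, ∑ t, q t * (∑ i, l i * c i t) ^ 2 =
      ∑ i, ∑ j, l i * M i j * l j := by
    intro l
    have e1 : ∀ t, q t * (∑ i, l i * c i t) ^ 2 =
        ∑ i, ∑ j, l i * (q t * c i t * c j t) * l j := by
      intro t
      rw [sq, Finset.sum_mul_sum, Finset.mul_sum]
      refine Finset.sum_congr rfl fun i _ => ?_
      rw [Finset.mul_sum]
      exact Finset.sum_congr rfl fun j _ => by ring
    simp only [e1]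
    rw [Finset.sum_comm]
    refine Finset.sum_congr rfl fun i _ => ?_
    rw [Finset.sum_comm]
    refine Finset.sum_congr rfl fun j _ => ?_
    rw [hM]
    simp only
    rw [Finset.mul_sum, Finset.sum_mul]
  have hlin : ∀ l : ι → ℤ, ∑ t, (2 * q t * x1 t + h t) * (∑ i, l i * c i t) =
      ∑ i, b i * l i := by
    intro l
    have e1 : ∀ t, (2 * q t * x1 t + h t) * (∑ i, l i * c i t) =
        ∑ i, ((2 * q t * x1 t + h t) * c i t) * l i := by
      intro t
      rw [Finset.mul_sum]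
      exact Finset.sum_congr rfl fun i _ => by ring
    simp only [e1]
    rw [Finset.sum_comm]
    refine Finset.sum_congr rfl fun i _ => ?_
    rw [hb]
    simp only
    rw [Finset.sum_mul]
  have hqx : qf q h x = qf q h x1 + (∑ i, ∑ j, ((L2.get i).1 : ℤ) * M i j * ((L2.get j).1 : ℤ) +
      ∑ i, b i * ((L2.get i).1 : ℤ)) := by
    rw [← hcomb fun i => ((L2.get i).1 : ℤ), ← hlin fun i => ((L2.get i).1 : ℤ), hx1x]
    unfold qf
    rw [← Finset.sum_add_distrib, ← Finset.sum_add_distrib]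
    refine Finset.sum_congr rfl fun t _ => ?_
    rw [Pi.add_apply, lsum_get]
    ring
  have hX := X0_le hu2
  have hfx1 : |qf q h x1| ≤ 2 ^ (12 * u ^ 2) := abs_qf_le hu2 hq hh hx1b
  have hXu : ((u * 2 ^ (7 * u) * X0 u (2 ^ (7 * u)) : ℕ) : ℤ) ≤ 2 ^ (17 * u ^ 2) := by
    have h1 : u * 2 ^ (7 * u) * X0 u (2 ^ (7 * u)) ≤ 2 ^ u * 2 ^ (7 * u) * 2 ^ (9 * u ^ 2) :=
      Nat.mul_le_mul (Nat.mul_le_mul_right _ (Nat.lt_two_pow_self).le) hX
    have h2 : 2 ^ u * 2 ^ (7 * u) * 2 ^ (9 * u ^ 2) ≤ 2 ^ (17 * u ^ 2) := by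
      rw [← pow_add, ← pow_add]
      exact Nat.pow_le_pow_right (by norm_num) (by nlinarith)
    exact_mod_cast h1.trans h2
  obtain ⟨μ, hμ, hμ'⟩ := sw hMs (b := b) (β := 2 ^ (7 * u)) (k := u) (Nat.one_le_two_pow) hMb hbb
    (by
      rw [Fintype.card_fin]
      have : L2.length ≤ L.length := List.length_filter_le _ _
      omega) (l := fun i => ((L2.get i).1 : ℝ)) (fun i => by positivity) (by
      have h1 : (∑ i, ∑ j, ((L2.get i).1 : ℤ) * M i j * ((L2.get j).1 : ℤ) +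
          ∑ i, b i * ((L2.get i).1 : ℤ)) < -((u * 2 ^ (7 * u) * X0 u (2 ^ (7 * u)) : ℕ) : ℤ) := by
        have h2 := (abs_le.1 hfx1).1
        have h3 : (2 : ℤ) ^ (12 * u ^ 2) ≤ 2 ^ (17 * u ^ 2) :=
          pow_le_two_pow (Nat.mul_le_mul_right _ (by norm_num))
        have h4 : (2 : ℤ) ^ (17 * u ^ 2) + 2 ^ (17 * u ^ 2) = 2 ^ (17 * u ^ 2 + 1) := by
          rw [pow_succ]; ring
        have h5 : (2 : ℤ) ^ (17 * u ^ 2 + 1) ≤ 2 ^ (20 * u ^ 2) := pow_le_two_pow (by nlinarith)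
        linarith
      have h2 : ((∑ i, ∑ j, ((L2.get i).1 : ℤ) * M i j * ((L2.get j).1 : ℤ) +
          ∑ i, b i * ((L2.get i).1 : ℤ) : ℤ) : ℝ) <
          ((-((u * 2 ^ (7 * u) * X0 u (2 ^ (7 * u)) : ℕ) : ℤ) : ℤ) : ℝ) := by exact_mod_cast h1
      push_cast at h2 ⊢
      exact h2)
  set d : Fin n → ℤ := fun t => ∑ i, μ i * c i t with hd
  refine ⟨x1, hx1F, d, ?_, hx1b, ?_, ?_⟩
  · intro r
    have h1 : dz (W r) d = ∑ i, μ i * dz (W r) (c i) := by
      unfold dz
      rw [hd]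
      simp only [Finset.mul_sum]
      rw [Finset.sum_comm]
      exact Finset.sum_congr rfl fun i _ => Finset.sum_congr rfl fun j _ => by ring
    rw [h1]
    refine Finset.sum_nonpos fun i _ => mul_nonpos_of_nonneg_of_nonpos (hμ i).1 ?_
    have h2 := (List.mem_filter.1 (List.get_mem L2 i)).2
    rw [hP] at h2
    simp only [Bool.not_eq_true', decide_eq_false_iff_not] at h2
    push Not at h2
    exact h2 r
  · intro t
    rw [hd]
    simp only
    calc |∑ i, μ i * c i t| ≤ ∑ i, |μ i * c i t| := Finset.abs_sum_le_sum_abs _ _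
      _ ≤ ∑ i : ι, (u : ℤ) * (X0 u (2 ^ (7 * u)) : ℤ) := by
          refine Finset.sum_le_sum fun i _ => ?_
          rw [abs_mul, abs_of_nonneg (hμ i).1]
          calc μ i * |c i t| ≤ μ i * 1 := mul_le_mul_of_nonneg_left (hcb i t) (hμ i).1
            _ ≤ _ := by rw [mul_one]; exact (hμ i).2
      _ = (L2.length : ℤ) * ((u : ℤ) * (X0 u (2 ^ (7 * u)) : ℤ)) := by simp [hι]
      _ ≤ 2 ^ u * (2 ^ u * 2 ^ (9 * u ^ 2)) := by
          have h1 : ((L2.length : ℕ) : ℤ) ≤ 2 ^ u := by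
            refine le_trans ?_ hlen
            exact_mod_cast List.length_filter_le _ _
          have h2 : (u : ℤ) ≤ 2 ^ u := by exact_mod_cast (Nat.lt_two_pow_self (n := u)).le
          have h3 : (X0 u (2 ^ (7 * u)) : ℤ) ≤ 2 ^ (9 * u ^ 2) := by exact_mod_cast hX
          exact mul_le_mul h1 (mul_le_mul h2 h3 (by positivity) (by positivity)) (by positivity)
            (by positivity)
      _ ≤ 2 ^ (11 * u ^ 2) := by
          rw [← pow_add, ← pow_add]
          exact pow_le_two_pow (by nlinarith)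
  · have h1 : ∑ t, q t * d t ^ 2 = ∑ i, ∑ j, μ i * M i j * μ j := hcomb μ
    have h2 : ∑ t, (2 * q t * x1 t + h t) * d t = ∑ i, b i * μ i := hlin μ
    rw [h1, h2]
    exact hμ'

end

end Pool.Agent.W2helper57.TUU
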