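import Pool.Agent.W2helper57.TU.Top
import Pool.Agent.W2helper57.TUU.Z
import Pool.Agent.W2helper57.TUH.Defs

set_option autoImplicit false

/-!
# Testing unboundedness with at most one concave variable
-/

namespace Pool.Agent.NPC.W2h57TUU

open Pool.Agent.NPC Pool.Agent.NPC.W2h57TU Pool.Agent.W2helper57.TU Pool.Agent.W2helper57.TUU
  Pool.Agent.W2helper57.TUH

/-- sum of the absolute values of all the data -/
def tot (I : Inst) : ℕ :=
  (I.1.map fun c => c.1.natAbs + c.2.natAbs).sum + (I.2.map fun q => l1 q.1).sum +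
    l1 (I.2.map fun q => q.2)

/-- size parameter -/
def uP (I : Inst) : ℕ := I.1.length + I.2.length + 2 + (tot I).size

/-- directions in which the objective function is linear -/
def cn (I : Inst) : List Row :=
  (I.2.map fun q => (q.1, (0 : ℤ))) ++ (List.range I.1.length).flatMap fun j =>
    if (I.1.getD j (0, 0)).1 = 0 then [] else rng I.1.length j 0 0

/-- is there such a direction in which the objective function decreases? -/
def lin (I : Inst) : Bool := lpFeas I.1.length ((I.1.map fun c => c.2, -1) :: cn I)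

/-- the part of the box with `x_i = T` -/
def slc (I : Inst) (T : ℤ) (i : ℕ) : List Row :=
  box I.1.length (46 * uP I ^ 2) I.2 ++ rng I.1.length i T T

/-- the best point of this part -/
def bst (I : Inst) (T : ℤ) (i : ℕ) : List ℤ :=
  conv I.1 (slc I T i) (46 * uP I ^ 2) (bE I.1 (46 * uP I ^ 2))

/-- is the objective function very small at a feasible point with `x_i = T`? -/
def tst (I : Inst) (T : ℤ) (i : ℕ) : Bool :=
  okB I.1.length I.2 (bst I T i) && decide (val I.1 (bst I T i) < -2 ^ (20 * uP I ^ 2))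

/-- the test of unboundedness -/
def unbT (I : Inst) : Bool :=
  lin I || (ngs I.1).any fun i => tst I (2 ^ (33 * uP I ^ 2)) i || tst I (-2 ^ (33 * uP I ^ 2)) i

/-! ### Polynomial time -/

section

variable {α : Type} [TEnc α]

theorem poly_tot : Poly tot := by
  have hob : Poly (fun a : Inst => a.1) := Poly.fst Poly.id
  have hS : Poly (fun a : Inst => a.2) := Poly.snd Poly.id
  exact Poly.add (Poly.add (Poly.sum (Poly.map hob (Poly.add (Poly.natAbs (Poly.fst (Poly.snd
    Poly.id))) (Poly.natAbs (Poly.snd (Poly.snd Poly.id)))))) (Poly.sum (Poly.map hS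
      (poly_l1 (Poly.fst (Poly.snd Poly.id)))))) (poly_l1 (Poly.map hS
        (Poly.snd (Poly.snd Poly.id))))

theorem upoly_uP : UPoly uP := by
  have hob : Poly (fun a : Inst => a.1) := Poly.fst Poly.id
  have hS : Poly (fun a : Inst => a.2) := Poly.snd Poly.id
  exact UPoly.add (UPoly.add (UPoly.add (UPoly.length hob) (UPoly.length hS)) (UPoly.const 2))
    (upoly_size poly_tot)

theorem upoly_sq (c : ℕ) : UPoly (fun I => c * uP I ^ 2) := by
  have h : UPoly (fun I => c * (uP I * uP I)) :=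
    UPoly.mul (UPoly.const c) (UPoly.mul upoly_uP upoly_uP)
  exact h.congr fun I => by simp only [sq]

theorem poly_two_pow (c : ℕ) : Poly (fun I => (2 : ℤ) ^ (c * uP I ^ 2)) :=
  Poly.ipow (Poly.const 2) (upoly_sq c)

theorem poly_cn : Poly cn := by
  have hob : Poly (fun a : Inst => a.1) := Poly.fst Poly.id
  have hS : Poly (fun a : Inst => a.2) := Poly.snd Poly.id
  have hn : UPoly (fun a : Inst => a.1.length) := UPoly.length hob
  refine Poly.append (Poly.map hS (Poly.pair (Poly.fst (Poly.snd Poly.id)) (Poly.const 0)))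
    (Poly.flatMap hn.range (Poly.ite (Poly.decide_eq (Poly.fst (Poly.getD
      (d := fun _ => ((0 : ℤ), (0 : ℤ))) (hob.comp (Poly.fst Poly.id)) (Poly.snd Poly.id)
      (Poly.const _))) (Poly.const 0)) (Poly.const []) (poly_rng (hn.comp (Poly.fst Poly.id))
        (Poly.snd Poly.id) (Poly.const 0) (Poly.const 0))))

theorem poly_lin : Poly lin := by
  have hob : Poly (fun a : Inst => a.1) := Poly.fst Poly.id
  have hn : UPoly (fun a : Inst => a.1.length) := UPoly.length hob
  exact poly_lpFeas hn (Poly.cons (Poly.pair (Poly.map hob (Poly.snd (Poly.snd Poly.id)))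
    (Poly.const (-1))) poly_cn)

theorem poly_slc {I : α → Inst} {T : α → ℤ} {i : α → ℕ} (hI : Poly I) (hT : Poly T)
    (hi : Poly i) : Poly (fun a => slc (I a) (T a) (i a)) := by
  have hn : UPoly (fun a => (I a).1.length) := UPoly.length (Poly.fst hI)
  exact Poly.append (poly_box hn ((upoly_sq 46).comp hI) (Poly.snd hI)) (poly_rng hn hi hT hT)

theorem poly_tst {I : α → Inst} {T : α → ℤ} {i : α → ℕ} (hI : Poly I) (hT : Poly T)
    (hi : Poly i) : Poly (fun a => tst (I a) (T a) (i a)) := by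
  have hob : Poly (fun a => (I a).1) := Poly.fst hI
  have hn : UPoly (fun a => (I a).1.length) := UPoly.length hob
  have hK := (upoly_sq 46).comp hI
  have hb : Poly (fun a => bst (I a) (T a) (i a)) :=
    poly_conv hob (poly_slc hI hT hi) hK (upoly_bE hob hK)
  exact Poly.and (poly_okB hn (Poly.snd hI) hb) (Poly.ilt (poly_val hob hb)
    (Poly.ineg ((poly_two_pow 20).comp hI)))

theorem poly_unbT : Poly unbT := by
  have f1 : Poly (fun z : Inst × ℕ => z.1) := Poly.fst Poly.id
  exact Poly.or poly_lin (Poly.any (poly_ngs (Poly.fst Poly.id)) (Poly.or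
    (poly_tst f1 ((poly_two_pow 33).comp f1) (Poly.snd Poly.id))
    (poly_tst f1 (Poly.ineg ((poly_two_pow 33).comp f1)) (Poly.snd Poly.id))))

end

/-! ### Certificates -/

/-- `x1` is feasible and the objective function tends to `-∞` along the ray `x1 + t d` -/
def Cert (I : Inst) (x1 d : Fin I.1.length → ℤ) : Prop :=
  x1 ∈ Sol I.1.length I.2 ∧ (∀ q ∈ I.2, dz (vz I.1.length q.1) d ≤ 0) ∧
    (∑ j, qa I.1 j * d j ^ 2 < 0 ∨
      (∑ j, qa I.1 j * d j ^ 2 = 0 ∧ ∑ j, (2 * qa I.1 j * x1 j + la I.1 j) * d j < 0))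

theorem feas_iff (I : Inst) (x : Fin I.1.length → ℤ) : Feas I x ↔ x ∈ Sol I.1.length I.2 := by
  rw [Sol_eq]
  rfl

theorem obj_eq (I : Inst) (x : Fin I.1.length → ℤ) : obj I x = qf (qa I.1) (la I.1) x := rfl

theorem qf_add {n : ℕ} (q h x d : Fin n → ℤ) (t : ℤ) : qf q h (x + t • d) =
    qf q h x + t * ∑ j, (2 * q j * x j + h j) * d j + t ^ 2 * ∑ j, q j * d j ^ 2 := by
  unfold qf
  rw [Finset.mul_sum, Finset.mul_sum, ← Finset.sum_add_distrib, ← Finset.sum_add_distrib]
  refine Finset.sum_congr rfl fun j _ => ?_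
  simp only [Pi.add_apply, Pi.smul_apply, smul_eq_mul]
  ring

theorem ray_le {G Q t : ℤ} (ht : |G| + 1 ≤ t) (h : Q < 0 ∨ (Q = 0 ∧ G < 0)) :
    t * G + t ^ 2 * Q ≤ -t := by
  have h1 := le_abs_self G
  have h2 := abs_nonneg G
  rcases h with h | ⟨h, h'⟩
  · have h3 : t * (t * Q) ≤ t * (-t) := mul_le_mul_of_nonneg_left (by nlinarith) (by omega)
    have h4 : t * (|G| + 1) ≤ t * t := mul_le_mul_of_nonneg_left ht (by omega)
    have h5 : t * G ≤ t * |G| := mul_le_mul_of_nonneg_left h1 (by omega)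
    nlinarith
  · rw [h]
    nlinarith

theorem cert_unb {I : Inst} {x1 d : Fin I.1.length → ℤ} (h : Cert I x1 d) : Unb I := by
  intro B
  obtain ⟨h1, h2, h3⟩ := h
  set G := ∑ j, (2 * qa I.1 j * x1 j + la I.1 j) * d j with hG
  set t : ℤ := |G| + 1 + |B| + |obj I x1| with ht
  have a1 := abs_nonneg G
  have a2 := abs_nonneg B
  have a3 := abs_nonneg (obj I x1)
  refine ⟨x1 + t • d, ?_, ?_⟩
  · rw [feas_iff]
    intro q hq
    rw [dz_add, dz_smul]
    have := h1 q hq
    have := h2 q hq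
    nlinarith
  · rw [obj_eq, qf_add, ← hG]
    have := ray_le (G := G) (t := t) (by omega) h3
    have e1 := neg_abs_le B
    have e2 := le_abs_self (obj I x1)
    rw [obj_eq] at e2 a3 ht
    omega

theorem tot_lt (I : Inst) : tot I < 2 ^ uP I := by
  have h1 : tot I < 2 ^ (tot I).size := Nat.lt_size_self _
  refine h1.trans_le (Nat.pow_le_pow_right (by norm_num) ?_)
  unfold uP
  omega

theorem cast_lt {I : Inst} {a : ℤ} {b : ℕ} (h : a = (b : ℤ)) (hb : b ≤ tot I) :
    a ≤ 2 ^ uP I := by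
  have h1 := tot_lt I
  have h2 : b ≤ 2 ^ uP I := by omega
  rw [h]
  exact_mod_cast h2

theorem bd_q (I : Inst) : ∑ j, |qa I.1 j| ≤ 2 ^ uP I := by
  refine cast_lt (b := ∑ j : Fin I.1.length, (I.1.get j).1.natAbs) ?_ ?_
  · push_cast
    rfl
  · have h1 : ∑ j : Fin I.1.length, (I.1.get j).1.natAbs ≤
        ∑ j : Fin I.1.length, ((I.1.get j).1.natAbs + (I.1.get j).2.natAbs) :=
      Finset.sum_le_sum fun j _ => Nat.le_add_right _ _
    rw [sum_get I.1 (fun c => c.1.natAbs + c.2.natAbs)] at h1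
    unfold tot
    omega

theorem bd_h (I : Inst) : ∑ j, |la I.1 j| ≤ 2 ^ uP I := by
  refine cast_lt (b := ∑ j : Fin I.1.length, (I.1.get j).2.natAbs) ?_ ?_
  · push_cast
    rfl
  · have h1 : ∑ j : Fin I.1.length, (I.1.get j).2.natAbs ≤
        ∑ j : Fin I.1.length, ((I.1.get j).1.natAbs + (I.1.get j).2.natAbs) :=
      Finset.sum_le_sum fun j _ => Nat.le_add_left _ _
    rw [sum_get I.1 (fun c => c.1.natAbs + c.2.natAbs)] at h1
    unfold tot
    omega

theorem bd_w (I : Inst) : ∑ r : Fin I.2.length, |(I.2.get r).2| ≤ 2 ^ uP I := by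
  refine cast_lt (b := ∑ r : Fin I.2.length, (I.2.get r).2.natAbs) ?_ ?_
  · push_cast
    rfl
  · rw [← l1_rhs]
    exact Nat.le_add_left _ _

theorem bd_W (I : Inst) (r : Fin I.2.length) :
    ∑ j, |vz I.1.length (I.2.get r).1 j| ≤ 2 ^ uP I := by
  refine cast_lt (b := ∑ j : Fin I.1.length, ((I.2.get r).1.getD j 0).natAbs) ?_ ?_
  · push_cast
    rfl
  · refine (sum_le_l1 _ _).trans ?_
    have h1 : l1 (I.2.get r).1 ≤ ∑ r : Fin I.2.length, l1 (I.2.get r).1 :=
      Finset.single_le_sum (f := fun r : Fin I.2.length => l1 (I.2.get r).1)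
        (fun _ _ => Nat.zero_le _) (Finset.mem_univ r)
    rw [sum_get I.2 (fun q => l1 q.1)] at h1
    unfold tot
    omega

theorem uP_ge (I : Inst) : I.1.length + I.2.length + 2 ≤ uP I := by
  unfold uP
  omega

/-- rows of the matrix -/
theorem rows_mem {I : Inst} : ∀ q ∈ I.2, vz I.1.length q.1 ∈ RW (mat I) := by
  intro q hq
  obtain ⟨r, rfl⟩ := List.get_of_mem hq
  exact RW_row (mat I) r

theorem exists_cert {I : Inst} (hTU : (mat I).IsTotallyUnimodular) {x : Fin I.1.length → ℤ}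
    (hx : x ∈ Sol I.1.length I.2) (hfx : qf (qa I.1) (la I.1) x < -2 ^ (20 * uP I ^ 2)) :
    ∃ x1 d, Cert I x1 d ∧ (∀ j, |x1 j| ≤ 2 ^ (5 * uP I)) ∧
      ∀ j, |d j| ≤ 2 ^ (11 * uP I ^ 2) := by
  obtain ⟨x1, h1, d, h2, h3, h4, h5⟩ := exists_ray (um_RW hTU)
    (W := fun r : Fin I.2.length => vz I.1.length (I.2.get r).1) (w := fun r => (I.2.get r).2)
    (fun r => rows_mem _ (List.get_mem _ _)) (q := qa I.1) (h := la I.1) (u := uP I)
    (by rw [Fintype.card_fin]; exact uP_ge I) (bd_q I) (bd_h I) (bd_w I) (bd_W I)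
    (x := x) (by rw [← Sol_eq]; exact hx) hfx
  refine ⟨x1, d, ⟨by rw [Sol_eq]; exact h1, ?_, h5⟩, h3, h4⟩
  intro q hq
  obtain ⟨r, rfl⟩ := List.get_of_mem hq
  exact h2 r

/-! ### Soundness -/

theorem mem_cn {I : Inst} (d : Fin I.1.length → ℤ) :
    (∀ q ∈ cn I, dz (vz I.1.length q.1) d ≤ q.2) ↔
      (∀ q ∈ I.2, dz (vz I.1.length q.1) d ≤ 0) ∧ ∀ j, qa I.1 j ≠ 0 → d j = 0 := by
  unfold cn
  simp only [List.mem_append, or_imp, forall_and, List.mem_map, forall_exists_index, and_imp,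
    forall_apply_eq_imp_iff₂]
  refine and_congr Iff.rfl ?_
  constructor
  · intro h j hj
    have h1 := (rng_iff le_rfl j.2 0 0 d).1 fun q hq => h q (by
      rw [List.mem_flatMap]
      refine ⟨j, List.mem_range.2 j.2, ?_⟩
      rw [getD_fin]
      change q ∈ if qa I.1 j = 0 then [] else _
      rw [if_neg hj]
      exact hq)
    exact le_antisymm h1.2 h1.1
  · intro h q hq
    rw [List.mem_flatMap] at hq
    obtain ⟨j, hj, hq⟩ := hq
    rw [List.mem_range] at hj
    split_ifs at hq with h0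
    · simp at hq
    · have h1 := h ⟨j, hj⟩ (by
        intro h2
        apply h0
        have := getD_fin I.1 ⟨j, hj⟩
        simp only at this
        rw [this]
        exact h2)
      exact (rng_iff le_rfl hj 0 0 d).2 ⟨h1.ge, h1.le⟩ q hq

theorem vz_la (I : Inst) : vz I.1.length (I.1.map fun c => c.2) = la I.1 := by
  funext j
  unfold vz la
  rw [List.getD_eq_getElem _ _ (by simp)]
  simp

theorem cn_mem {I : Inst} {R : Set (Fin I.1.length → ℤ)} (hR : Um R)
    (hS : ∀ q ∈ I.2, vz I.1.length q.1 ∈ R) : ∀ q ∈ cn I, vz I.1.length q.1 ∈ R := by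
  intro q hq
  unfold cn at hq
  rw [List.mem_append] at hq
  rcases hq with hq | hq
  · rw [List.mem_map] at hq
    obtain ⟨p, hp, rfl⟩ := hq
    exact hS p hp
  · rw [List.mem_flatMap] at hq
    obtain ⟨j, hj, hq⟩ := hq
    rw [List.mem_range] at hj
    split_ifs at hq with h0
    · simp at hq
    · exact (rng_XR hR le_rfl hj _ _ q hq).1

theorem lin_iff {I : Inst} (hTU : (mat I).IsTotallyUnimodular) : lin I = true ↔
    ∃ d : Fin I.1.length → ℤ, (∀ q ∈ I.2, dz (vz I.1.length q.1) d ≤ 0) ∧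
      (∀ j, qa I.1 j ≠ 0 → d j = 0) ∧ ∑ j, la I.1 j * d j < 0 := by
  have hR := um_RW hTU
  unfold lin
  rw [lpFeas_iff]
  constructor
  · rintro ⟨x, hx⟩
    rw [satR_cons, row_real, vz_la] at hx
    obtain ⟨h1, h2⟩ := hx
    obtain ⟨z, hz, hz'⟩ := lpint hR (v := fun r : Fin (cn I).length =>
        vz I.1.length ((cn I).get r).1)
      (fun r => cn_mem hR rows_mem _ (List.get_mem _ _)) (b := fun r => ((cn I).get r).2)
      (q := 0) (h := la I.1) (s := 1) (by norm_num) (X := fun j => x j)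
      (T := fun j => la I.1 j * x j)
      (fun r => by
        have := h2 _ (List.get_mem (cn I) r)
        rwa [row_real] at this)
      (fun j => by simp)
    refine ⟨z, ?_⟩
    have h3 := (mem_cn z).1 (fun q hq => by
      obtain ⟨r, rfl⟩ := List.get_of_mem hq
      exact hz r)
    refine ⟨h3.1, h3.2, ?_⟩
    rw [fps_one] at hz'
    have h4 : qf 0 (la I.1) z = ∑ j, la I.1 j * z j := by
      unfold qf
      exact Finset.sum_congr rfl fun j _ => by simp
    rw [h4] at hz'
    have h5 : ∑ j, (la I.1 j : ℝ) * x j = dr (la I.1) (fun j => x j) := rfl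
    rw [h5] at hz'
    have h6 := hz'.trans h1
    have h7 : ∑ j, la I.1 j * z j ≤ -1 := by exact_mod_cast h6
    omega
  · rintro ⟨d, h1, h2, h3⟩
    refine ⟨ext d 0, ?_⟩
    rw [satR_cons, row_real, vz_la, ext_lt, dr_int]
    constructor
    · have : ∑ j, la I.1 j * d j ≤ -1 := by omega
      exact_mod_cast this
    · intro q hq
      rw [row_real, ext_lt, dr_int]
      exact_mod_cast (mem_cn d).2 ⟨h1, h2⟩ q hq

theorem unbT_sound {I : Inst} (hTU : (mat I).IsTotallyUnimodular) (hne : ∃ x, Feas I x)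
    (h : unbT I = true) : Unb I := by
  unfold unbT at h
  rw [Bool.or_eq_true] at h
  rcases h with h | h
  · rw [lin_iff hTU] at h
    obtain ⟨d, h1, h2, h3⟩ := h
    obtain ⟨x, hx⟩ := hne
    rw [feas_iff] at hx
    have e1 : ∀ j, qa I.1 j * d j = 0 := by
      intro j
      by_cases hj : qa I.1 j = 0
      · rw [hj, zero_mul]
      · rw [h2 j hj, mul_zero]
    refine cert_unb (x1 := x) (d := d) ⟨hx, h1, Or.inr ⟨?_, ?_⟩⟩
    · refine Finset.sum_eq_zero fun j _ => ?_
      rw [sq, ← mul_assoc, e1, zero_mul]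
    · refine lt_of_eq_of_lt (Finset.sum_congr rfl fun j _ => ?_) h3
      have : (2 * qa I.1 j * x j + la I.1 j) * d j =
          2 * x j * (qa I.1 j * d j) + la I.1 j * d j := by ring
      rw [this, e1, mul_zero, zero_add]
  · have key : ∀ T i, tst I T i = true → Unb I := by
      intro T i ht
      unfold tst at ht
      rw [Bool.and_eq_true, okB_iff, decide_eq_true_eq, val_eq] at ht
      obtain ⟨x1, d, hc, _⟩ := exists_cert hTU ht.1 ht.2
      exact cert_unb hc
    rw [List.any_eq_true] at h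
    obtain ⟨i, _, hi⟩ := h
    rw [Bool.or_eq_true] at hi
    rcases hi with hi | hi
    · exact key _ _ hi
    · exact key _ _ hi

end Pool.Agent.NPC.W2h57TUU
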